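import Pool.Agent.K7.H66.CW.C
import Pool.Agent.W36.SL.Limit

/-!
Clusters of large excursions, part 1: the excursions of a form `3 ^ i X + r` along a word of bits.
-/

set_option autoImplicit false

namespace Pool.Agent.K7.H66.EX

open Finset Filter Topology Pool.Agent.H499R2.CO Pool.Agent.W38.CR Pool.Agent.K7.H66.CW

/-- The form `A`, relative to `X`, reaches `θ` along the word. -/
def Up : List Bool → ℕ × ℤ → ℝ → Prop
  | [], A, θ => θ ≤ 3 ^ A.1
  | b :: l, A, θ => θ ≤ 3 ^ A.1 ∨ Up l (fs b A) (2 * θ)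

theorem Up_append (l l' : List Bool) : ∀ (A : ℕ × ℤ) (θ : ℝ),
    Up (l ++ l') A θ ↔ Up l A θ ∨ Up l' (fl l A) (2 ^ l.length * θ) := by
  induction l with
  | nil =>
    intro A θ
    simp only [List.nil_append, fl, Up, List.length_nil, pow_zero, one_mul]
    cases l' with
    | nil => simp [Up]
    | cons b l' => simp only [Up]; tauto
  | cons b l ih =>
    intro A θ
    simp only [List.cons_append, fl, Up, List.length_cons]
    rw [ih]
    have e : (2 : ℝ) ^ l.length * (2 * θ) = 2 ^ (l.length + 1) * θ := by rw [pow_succ]; ring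
    rw [e]
    tauto

theorem Up_anti (l : List Bool) : ∀ (A : ℕ × ℤ) {θ θ' : ℝ}, θ ≤ θ' → Up l A θ' → Up l A θ := by
  induction l with
  | nil => intro A θ θ' h h1; exact h.trans h1
  | cons b l ih =>
    intro A θ θ' h h1
    rcases h1 with h1 | h1
    · exact Or.inl (h.trans h1)
    · exact Or.inr (ih _ (by linarith) h1)

/-- No exceedance of a high threshold in a short time. -/
theorem not_Up (l : List Bool) : ∀ (A : ℕ × ℤ) {θ : ℝ}, (3 : ℝ) ^ (A.1 + l.length) < θ → ¬ Up l A θ := by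
  induction l with
  | nil =>
    intro A θ h h1
    simp only [List.length_nil, add_zero] at h
    exact absurd h1 (not_le.2 h)
  | cons b l ih =>
    intro A θ h h1
    have h3 : (0 : ℝ) < 3 ^ (A.1 + (b :: l).length) := by positivity
    rcases h1 with h1 | h1
    · have h2 : (3 : ℝ) ^ A.1 ≤ 3 ^ (A.1 + (b :: l).length) := pow_le_pow_right₀ (by norm_num) (by omega)
      linarith
    · refine ih (fs b A) ?_ h1
      have h2 : (3 : ℝ) ^ ((fs b A).1 + l.length) ≤ 3 ^ (A.1 + (b :: l).length) := by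
        apply pow_le_pow_right₀ (by norm_num)
        have := (fs_level b A).2
        simp only [List.length_cons]; omega
      linarith

/-- The two steps of a form. -/
theorem two_steps (A : ℕ × ℤ) (F : ℕ → ℝ) :
    F (fs false A).1 + F (fs true A).1 = F A.1 + F (A.1 + 1) := by
  rcases vl_cases A with ⟨h1, h2⟩ | ⟨h1, h2⟩
  · rw [fs_even h1, fs_odd h2]
  · rw [fs_odd h1, fs_even h2]
    ring

open Pool.Agent.W36.SL (s p q C)

/-- The law of a single excursion. -/
theorem av_Up (K : ℕ) : ∀ (A : ℕ × ℤ) (θ : ℝ),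
    av K (fun l => ind (Up l A θ)) = 1 - s K (θ / 3 ^ A.1) := by
  induction K with
  | zero =>
    intro A θ
    change ind (θ ≤ 3 ^ A.1) = _
    have h3 : (0 : ℝ) < 3 ^ A.1 := by positivity
    by_cases h : θ ≤ 3 ^ A.1
    · rw [ind_pos h, Pool.Agent.W36.SL.s_zero_of_le 0 ((div_le_one h3).2 h)]; norm_num
    · rw [ind_neg h]
      have : 1 < θ / 3 ^ A.1 := (one_lt_div h3).2 (not_le.1 h)
      simp [s, this]
  | succ K ih =>
    intro A θ
    have h3 : (0 : ℝ) < 3 ^ A.1 := by positivity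
    by_cases h : θ ≤ 3 ^ A.1
    · rw [Pool.Agent.W36.SL.s_zero_of_le (K + 1) ((div_le_one h3).2 h), sub_zero, ← av_const (K + 1) 1]
      apply av_congr
      intro l hl
      apply ind_pos
      cases l with
      | nil => exact h
      | cons b l => exact Or.inl h
    · have h1 : 1 < θ / 3 ^ A.1 := (one_lt_div h3).2 (not_le.1 h)
      have e : ∀ b : Bool, av K (fun l => ind (Up (b :: l) A θ)) =
          1 - s K (2 * θ / 3 ^ (fs b A).1) := by
        intro b
        rw [← ih]
        apply av_congr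
        intro l _
        congr 1
        simp only [Up, eq_iff_iff]
        constructor
        · rintro (h2 | h2)
          · exact absurd h2 h
          · exact h2
        · exact Or.inr
      simp only [av]
      rw [e, e, Pool.Agent.W36.SL.s_succ K h1]
      have h4 := two_steps A (fun i => s K (2 * θ / 3 ^ i))
      have e1 : 2 * (θ / 3 ^ A.1) / 3 = 2 * θ / 3 ^ (A.1 + 1) := by rw [pow_succ]; field_simp
      have e2 : 2 * (θ / 3 ^ A.1) = 2 * θ / 3 ^ A.1 := by ring
      rw [e1, e2]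
      linarith

/-- Ville's inequality. -/
theorem av_Up_le (K : ℕ) (A : ℕ × ℤ) {θ : ℝ} (hθ : 0 < θ) :
    av K (fun l => ind (Up l A θ)) ≤ 3 ^ A.1 / θ := by
  have h3 : (0 : ℝ) < 3 ^ A.1 := by positivity
  rw [av_Up]
  have h := Pool.Agent.W36.SL.s_ge K (θ / 3 ^ A.1) (by positivity)
  have e : 1 / (θ / 3 ^ A.1) = 3 ^ A.1 / θ := by field_simp
  rw [e] at h
  linarith

theorem ind_mono {a b : Prop} (h : a → b) : ind a ≤ ind b := by
  by_cases ha : a
  · rw [ind_pos ha, ind_pos (h ha)]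
  · rw [ind_neg ha]; exact ind_nonneg b

/-- Two excursions. -/
theorem av_two_le (K : ℕ) (A B : ℕ × ℤ) {θ θ' : ℝ} (hθ : 0 < θ) (hθ' : 0 < θ') :
    av K (fun l => ind (Up l A θ ∧ Up l B θ')) ≤ √ (3 ^ A.1 * 3 ^ B.1) / √ (θ * θ') := by
  have h1 : av K (fun l => ind (Up l A θ ∧ Up l B θ')) ≤ 3 ^ A.1 / θ :=
    (av_mono fun l _ => ind_mono fun h => h.1).trans (av_Up_le K A hθ)
  have h2 : av K (fun l => ind (Up l A θ ∧ Up l B θ')) ≤ 3 ^ B.1 / θ' :=
    (av_mono fun l _ => ind_mono fun h => h.2).trans (av_Up_le K B hθ')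
  have h0 : 0 ≤ av K (fun l => ind (Up l A θ ∧ Up l B θ')) := av_nonneg fun l _ => ind_nonneg _
  rw [← Real.sqrt_div (by positivity)]
  apply Real.le_sqrt_of_sq_le
  rw [sq]
  have e : (3 : ℝ) ^ A.1 * 3 ^ B.1 / (θ * θ') = (3 ^ A.1 / θ) * (3 ^ B.1 / θ') := by field_simp
  rw [e]
  exact mul_le_mul h1 h2 h0 (by positivity)

end Pool.Agent.K7.H66.EX
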