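import Pool.Agent.K7.H66.CW.N1
import Pool.Agent.K7.H66.EX.A

/-!
Clusters of large excursions, part 2: the pairs that do not coalesce do not count.
-/

set_option autoImplicit false

namespace Pool.Agent.K7.H66.EX

open Finset Filter Topology Pool.Agent.H499R2.CO Pool.Agent.W38.CR Pool.Agent.K7.H66.CW

/-- The mean of the geometric mean of the two values, over the pairs which have not coalesced. -/
noncomputable def RR : ℕ → ℕ × ℤ → ℝ
  | 0, s => if s = (0, 0) then 0 else 1
  | k + 1, s => if s.2 % 2 = 0 then (RR k (step s false) + 3 * RR k (step s true)) / 4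
      else √3 * ((RR k (step s false) + RR k (step s true)) / 4)

theorem RR_even {k : ℕ} {s : ℕ × ℤ} (h : s.2 % 2 = 0) :
    RR (k + 1) s = (RR k (step s false) + 3 * RR k (step s true)) / 4 := by simp only [RR, if_pos h]

theorem RR_odd {k : ℕ} {s : ℕ × ℤ} (h : ¬ s.2 % 2 = 0) :
    RR (k + 1) s = √3 * ((RR k (step s false) + RR k (step s true)) / 4) := by simp only [RR, if_neg h]

theorem sqrt3_le : √3 ≤ 1.7321 := by
  rw [Real.sqrt_le_left (by norm_num)]
  norm_num

theorem sqrt3_nonneg : 0 ≤ √3 := Real.sqrt_nonneg _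

theorem RR_nonneg (k : ℕ) : ∀ s, 0 ≤ RR k s := by
  induction k with
  | zero => intro s; simp only [RR]; split_ifs <;> norm_num
  | succ k ih =>
    intro s
    have h1 := ih (step s false)
    have h2 := ih (step s true)
    by_cases h : s.2 % 2 = 0
    · rw [RR_even h]; linarith
    · rw [RR_odd h]; exact mul_nonneg sqrt3_nonneg (by linarith)

theorem step_zero (b : Bool) : step (0, 0) b = (0, 0) := by
  cases b
  · rw [step_ef (by norm_num)]; rfl
  · rw [step_et (by norm_num)]; rfl

theorem RR_zero (k : ℕ) : RR k (0, 0) = 0 := by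
  induction k with
  | zero => simp [RR]
  | succ k ih => rw [RR_even (by norm_num), step_zero, step_zero, ih]; norm_num

theorem RR_anti (k : ℕ) : ∀ s, RR (k + 1) s ≤ RR k s := by
  have h3 := sqrt3_le
  have h30 := sqrt3_nonneg
  induction k with
  | zero =>
    intro s
    by_cases hs : s = (0, 0)
    · subst hs; rw [RR_zero, RR_zero]
    · have e : RR 0 s = 1 := by simp [RR, hs]
      have h1 : ∀ s, RR 0 s ≤ 1 := by intro s; simp only [RR]; split_ifs <;> norm_num
      have h2 := h1 (step s false)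
      have h4 := h1 (step s true)
      have h5 := RR_nonneg 0 (step s false)
      have h6 := RR_nonneg 0 (step s true)
      rw [e]
      by_cases h : s.2 % 2 = 0
      · rw [RR_even h]; linarith
      · rw [RR_odd h]; nlinarith
  | succ k ih =>
    intro s
    have h1 := ih (step s false)
    have h2 := ih (step s true)
    by_cases h : s.2 % 2 = 0
    · rw [RR_even h, RR_even h]; linarith
    · rw [RR_odd h, RR_odd h]
      exact mul_le_mul_of_nonneg_left (by linarith) h30

theorem RR_le_one (k : ℕ) (s : ℕ × ℤ) : RR k s ≤ 1 := by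
  have h : Antitone (fun k => RR k s) := antitone_nat_of_succ_le fun k => RR_anti k s
  refine (h (Nat.zero_le k)).trans ?_
  simp only [RR]; split_ifs <;> norm_num

/-- The limit. -/
noncomputable def RL (s : ℕ × ℤ) : ℝ := ⨅ k, RR k s

theorem RR_tendsto (s : ℕ × ℤ) : Tendsto (fun k => RR k s) atTop (𝓝 (RL s)) :=
  tendsto_atTop_ciInf (antitone_nat_of_succ_le fun k => RR_anti k s)
    ⟨0, by rintro _ ⟨k, rfl⟩; exact RR_nonneg k s⟩

theorem RL_nonneg (s : ℕ × ℤ) : 0 ≤ RL s := ge_of_tendsto' (RR_tendsto s) fun k => RR_nonneg k s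

theorem RL_le_one (s : ℕ × ℤ) : RL s ≤ 1 := le_of_tendsto' (RR_tendsto s) fun k => RR_le_one k s

theorem RL_zero : RL (0, 0) = 0 := by
  refine tendsto_nhds_unique (RR_tendsto (0, 0)) ?_
  have : (fun k => RR k (0, 0)) = fun _ => (0 : ℝ) := funext fun k => RR_zero k
  rw [this]; exact tendsto_const_nhds

theorem RL_even {s : ℕ × ℤ} (h : s.2 % 2 = 0) : RL s = (RL (step s false) + 3 * RL (step s true)) / 4 := by
  refine tendsto_nhds_unique ((RR_tendsto s).comp (tendsto_add_atTop_nat 1)) ?_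
  refine (((RR_tendsto (step s false)).add ((RR_tendsto (step s true)).const_mul 3)).div_const 4).congr fun k => ?_
  simp only [Function.comp]
  rw [RR_even h]

theorem RL_odd {s : ℕ × ℤ} (h : ¬ s.2 % 2 = 0) : RL s = √3 * ((RL (step s false) + RL (step s true)) / 4) := by
  refine tendsto_nhds_unique ((RR_tendsto s).comp (tendsto_add_atTop_nat 1)) ?_
  refine ((((RR_tendsto (step s false)).add (RR_tendsto (step s true))).div_const 4).const_mul √3).congr fun k => ?_
  simp only [Function.comp]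
  rw [RR_odd h]

/-! ### the levels -/

theorem lev_ndvd {f : ℕ × ℤ → ℝ} {c x : ℝ} {i : ℕ} (hx : 0 ≤ x)
    (he : ∀ r : ℤ, r % 2 = 0 → f (i, r) = (f (step (i, r) false) + 3 * f (step (i, r) true)) / 4)
    (ho : ∀ r : ℤ, ¬ r % 2 = 0 → f (i, r) ≤ c) (hb : ∀ r : ℤ, f (i, r) ≤ c + x) :
    ∀ (k : ℕ) (r : ℤ), ¬ (2 : ℤ) ^ (k + 1) ∣ r → f (i, r) ≤ c + (1 - 1 / 4 ^ k) * x := by
  intro k
  induction k with
  | zero =>
    intro r h
    rw [zero_add, pow_one] at h
    have := ho r (by omega)
    simpa using this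
  | succ k ih =>
    intro r h
    have h4 : (1 : ℝ) / 4 ^ (k + 1) = 1 / 4 ^ k / 4 := by rw [pow_succ]; field_simp
    by_cases hr : r % 2 = 0
    · rw [he r hr, step_ef hr, step_et hr]
      have h1 : ¬ (2 : ℤ) ^ (k + 1) ∣ r / 2 := by
        intro h2
        apply h
        obtain ⟨m, hm⟩ := h2
        refine ⟨m, ?_⟩
        have : r = 2 * (r / 2) := by omega
        rw [this, hm, pow_succ (2 : ℤ) (k + 1)]
        ring
      have h2 := ih (r / 2) h1
      have h3 := hb ((3 * r + 1 - 3 ^ i) / 2)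
      rw [h4]
      linarith
    · have h1 := ho r hr
      have h2 : (1 : ℝ) / 4 ^ (k + 1) ≤ 1 := by
        rw [div_le_one (by positivity)]; exact one_le_pow₀ (by norm_num)
      nlinarith

theorem lev_all {f : ℕ × ℤ → ℝ} {c x : ℝ} {i e : ℕ} (hx : 0 ≤ x) (he1 : 1 ≤ e) (hi : ¬ (2 : ℤ) ^ (e + 1) ∣ 3 ^ i - 1)
    (he : ∀ r : ℤ, r % 2 = 0 → f (i, r) = (f (step (i, r) false) + 3 * f (step (i, r) true)) / 4)
    (ho : ∀ r : ℤ, ¬ r % 2 = 0 → f (i, r) ≤ c) (hb : ∀ r : ℤ, f (i, r) ≤ c + x) (r : ℤ) :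
    f (i, r) ≤ c + (1 - 1 / 4 ^ e) * x := by
  by_cases h : (2 : ℤ) ^ (e + 1) ∣ r
  · have hr : r % 2 = 0 := by
      have : (2 : ℤ) ∣ r := dvd_trans (dvd_pow_self 2 (by omega)) h
      omega
    obtain ⟨m, hm⟩ : ∃ m : ℤ, (3 : ℤ) ^ i = 2 * m + 1 := odd3z i
    have h1 : ¬ (2 : ℤ) ^ e ∣ (3 * r + 1 - 3 ^ i) / 2 := by
      intro h2
      apply hi
      obtain ⟨u, hu⟩ := h2
      obtain ⟨w, hw⟩ := h
      have h3 : 3 * r + 1 - 3 ^ i = 2 * ((3 * r + 1 - 3 ^ i) / 2) := by omega
      refine ⟨3 * w - u, ?_⟩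
      rw [hu] at h3
      rw [pow_succ] at hw ⊢
      linear_combination (-1) * h3 + 3 * hw
    obtain ⟨k, rfl⟩ : ∃ k, e = k + 1 := ⟨e - 1, by omega⟩
    rw [he r hr, step_ef hr, step_et hr]
    have h2 := lev_ndvd hx he ho hb k ((3 * r + 1 - 3 ^ i) / 2) h1
    have h3 := hb (r / 2)
    have h4 : (1 : ℝ) / 4 ^ (k + 1) = 1 / 4 ^ k / 4 := by rw [pow_succ]; field_simp
    have h5 : 0 ≤ (1 : ℝ) / 4 ^ k * x := by positivity
    rw [h4]
    nlinarith
  · exact lev_ndvd hx he ho hb e r h

theorem lev_lim {f : ℕ × ℤ → ℝ} {c x : ℝ} {i : ℕ} (hx : 0 ≤ x) (hi : 1 ≤ i)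
    (he : ∀ r : ℤ, r % 2 = 0 → f (i, r) = (f (step (i, r) false) + 3 * f (step (i, r) true)) / 4)
    (ho : ∀ r : ℤ, ¬ r % 2 = 0 → f (i, r) ≤ c) (hb : ∀ r : ℤ, f (i, r) ≤ c + x) (r : ℤ) : f (i, r) ≤ c := by
  set e := Nat.log 2 i + 2 with hedef
  have h1 : ¬ (2 : ℤ) ^ (e + 1) ∣ 3 ^ i - 1 := ndvd_pow hi
  set ρ : ℝ := 1 - 1 / 4 ^ e with hρ
  have hρ0 : 0 ≤ ρ := by
    have : (1 : ℝ) / 4 ^ e ≤ 1 := by
      rw [div_le_one (by positivity)]; exact one_le_pow₀ (by norm_num)
    linarith
  have hρ1 : ρ < 1 := by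
    have : (0 : ℝ) < 1 / 4 ^ e := by positivity
    linarith
  have h2 : ∀ n : ℕ, ∀ r : ℤ, f (i, r) ≤ c + ρ ^ n * x := by
    intro n
    induction n with
    | zero => intro r; rw [pow_zero, one_mul]; exact hb r
    | succ n ih =>
      intro r
      have h3 := lev_all (mul_nonneg (pow_nonneg hρ0 n) hx) (by omega) h1 he ho ih r
      refine h3.trans (le_of_eq ?_)
      rw [pow_succ]; ring
  have h3 : Tendsto (fun n : ℕ => c + ρ ^ n * x) atTop (𝓝 (c + 0 * x)) :=
    ((tendsto_pow_atTop_nhds_zero_of_lt_one hρ0 hρ1).mul_const x).const_add c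
  rw [zero_mul, add_zero] at h3
  exact ge_of_tendsto' h3 fun n => h2 n r

theorem RL_shrink {c : ℝ} (hc : 0 ≤ c) (h : ∀ s, RL s ≤ c) : ∀ s, RL s ≤ 0.8661 * c := by
  have h3 := sqrt3_le
  have h30 := sqrt3_nonneg
  have hodd : ∀ (i : ℕ) (r : ℤ), ¬ r % 2 = 0 → RL (i, r) ≤ 0.8661 * c := by
    intro i r hr
    rw [RL_odd (s := (i, r)) hr]
    have h1 := h (step (i, r) false)
    have h2 := h (step (i, r) true)
    calc √3 * ((RL (step (i, r) false) + RL (step (i, r) true)) / 4) ≤ √3 * (c / 2) :=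
          mul_le_mul_of_nonneg_left (by linarith) h30
      _ ≤ 1.7321 * (c / 2) := mul_le_mul_of_nonneg_right h3 (by linarith)
      _ ≤ 0.8661 * c := by linarith
  rintro ⟨i, r⟩
  rcases Nat.eq_zero_or_pos i with hi | hi
  · subst hi
    by_cases hr0 : r = 0
    · subst hr0; rw [RL_zero]; positivity
    · -- level zero
      have key : ∀ (L : ℕ) (r : ℤ), ¬ (2 : ℤ) ^ L ∣ r → RL (0, r) ≤ 0.8661 * c := by
        intro L
        induction L with
        | zero => intro r h; exact absurd (by simp) h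
        | succ L ih =>
          intro r hL
          by_cases hr : r % 2 = 0
          · obtain ⟨m, rfl⟩ : ∃ m, r = 2 * m := ⟨r / 2, by omega⟩
            have e1 : 2 * m / 2 = m := by omega
            have e2 : (3 * (2 * m) + 1 - 3 ^ 0) / 2 = 3 * m := by rw [pow_zero]; omega
            rw [RL_even (s := (0, 2 * m)) hr, step_ef hr, step_et hr, e1, e2]
            have h1 : ¬ (2 : ℤ) ^ L ∣ m := by
              intro h2; apply hL
              rw [pow_succ, mul_comm]
              exact mul_dvd_mul_left 2 h2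
            have h2 : ¬ (2 : ℤ) ^ L ∣ 3 * m := by
              intro h4
              apply h1
              have hc : IsCoprime ((2 : ℤ) ^ L) 3 := by
                apply IsCoprime.pow_left
                exact ⟨-1, 1, by norm_num⟩
              exact hc.dvd_of_dvd_mul_left h4
            have h4 := ih m h1
            have h5 := ih (3 * m) h2
            linarith
          · exact hodd 0 r hr
      obtain ⟨L, hL⟩ : ∃ L : ℕ, ¬ (2 : ℤ) ^ L ∣ r := by
        by_contra hcon
        push Not at hcon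
        apply hr0
        have h1 := hcon r.natAbs
        by_contra h0
        have h2 := Int.le_of_dvd (by positivity) ((dvd_abs _ _).2 h1)
        have h5 : r.natAbs < 2 ^ r.natAbs := Nat.lt_two_pow_self
        have h6 : ((r.natAbs : ℕ) : ℤ) < 2 ^ r.natAbs := by exact_mod_cast h5
        rw [Int.natCast_natAbs] at h6
        linarith
      exact key L r hL
  · refine lev_lim (f := RL) (c := 0.8661 * c) (x := 0.1339 * c) (by linarith) hi (fun r hr => RL_even (s := (i, r)) hr)
      (fun r hr => hodd i r hr) (fun r => ?_) r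
    have := h (i, r)
    linarith

theorem RL_eq (s : ℕ × ℤ) : RL s = 0 := by
  apply le_antisymm _ (RL_nonneg s)
  have h : ∀ n : ℕ, ∀ s, RL s ≤ 0.8661 ^ n := by
    intro n
    induction n with
    | zero => intro s; rw [pow_zero]; exact RL_le_one s
    | succ n ih =>
      intro s
      have := RL_shrink (by positivity) ih s
      rw [pow_succ, mul_comm]
      exact this
  have h2 : Tendsto (fun n : ℕ => (0.8661 : ℝ) ^ n) atTop (𝓝 0) :=
    tendsto_pow_atTop_nhds_zero_of_lt_one (by norm_num) (by norm_num)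
  exact ge_of_tendsto' h2 fun n => h n s

theorem RR_lim (s : ℕ × ℤ) : Tendsto (fun k => RR k s) atTop (𝓝 0) := by
  rw [← RL_eq s]; exact RR_tendsto s

/-! ### the forms -/

/-- The mean of the geometric mean. -/
theorem av_geo (K : ℕ) : ∀ A B : ℕ × ℤ,
    av K (fun l => nq (fl l A) (fl l B) * √ (3 ^ (fl l A).1 * 3 ^ (fl l B).1)) =
      2 ^ K * (√ (3 ^ A.1 * 3 ^ B.1) * RR K (st A B)) := by
  induction K with
  | zero =>
    intro A B
    change nq A B * √ (3 ^ A.1 * 3 ^ B.1) = _
    by_cases h : A = B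
    · subst h; rw [nq_self, st_self, RR_zero]; simp
    · rw [nq_ne h]
      have : RR 0 (st A B) = 1 := by simp [RR, st_eq_zero, h]
      rw [this]; ring
  | succ K ih =>
    have main : ∀ A B : ℕ × ℤ, A.1 ≤ B.1 →
        av (K + 1) (fun l => nq (fl l A) (fl l B) * √ (3 ^ (fl l A).1 * 3 ^ (fl l B).1)) =
        2 ^ (K + 1) * (√ (3 ^ A.1 * 3 ^ B.1) * RR (K + 1) (st A B)) := by
      intro A B h
      simp only [av, fl]
      rw [ih, ih, st_fs h, st_fs h]
      have hst : ∀ b, st A B = (B.1 - A.1, vl b B - 3 ^ (B.1 - A.1) * vl b A) := by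
        intro b
        unfold st
        rw [if_pos h, vl_diff h b]
      set i := B.1 - A.1 with hi
      obtain ⟨m, hm⟩ := odd3z i
      -- one bit
      have key : ∀ b : Bool, √ (3 ^ (fs b A).1 * 3 ^ (fs b B).1) = √ (3 ^ A.1 * 3 ^ B.1) *
          (if (st A B).2 % 2 = 0 then (if vl b A % 2 = 0 then 1 else 3) else √3) := by
        intro b
        have e9 : √ (9 : ℝ) = 3 := by
          rw [show (9 : ℝ) = 3 ^ 2 by norm_num]; exact Real.sqrt_sq (by norm_num)
        have hs := hst b
        have hxx : (3 : ℤ) ^ i * vl b A = 2 * (m * vl b A) + vl b A := by rw [hm]; ring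
        have hs2 : (st A B).2 % 2 = (vl b B - vl b A) % 2 := by
          rw [hs]; simp only; rw [hxx]; omega
        by_cases h1 : vl b A % 2 = 0 <;> by_cases h2 : vl b B % 2 = 0
        · rw [if_pos (by omega), if_pos h1, fs_even h1, fs_even h2, mul_one]
        · rw [if_neg (by omega), fs_even h1, fs_odd h2]
          have e : (3 : ℝ) ^ (A.1, vl b A / 2).1 * 3 ^ (B.1 + 1, (3 * vl b B + 1) / 2).1 = 3 ^ A.1 * 3 ^ B.1 * 3 := by
            simp only [pow_succ]; ring
          rw [e, Real.sqrt_mul (by positivity)]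
        · rw [if_neg (by omega), fs_odd h1, fs_even h2]
          have e : (3 : ℝ) ^ (A.1 + 1, (3 * vl b A + 1) / 2).1 * 3 ^ (B.1, vl b B / 2).1 = 3 ^ A.1 * 3 ^ B.1 * 3 := by
            simp only [pow_succ]; ring
          rw [e, Real.sqrt_mul (by positivity)]
        · rw [if_pos (by omega), if_neg h1, fs_odd h1, fs_odd h2]
          have e : (3 : ℝ) ^ (A.1 + 1, (3 * vl b A + 1) / 2).1 * 3 ^ (B.1 + 1, (3 * vl b B + 1) / 2).1 =
              3 ^ A.1 * 3 ^ B.1 * 9 := by
            simp only [pow_succ]; ring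
          rw [e, Real.sqrt_mul (by positivity), e9]
      rw [key, key]
      by_cases hs : (st A B).2 % 2 = 0
      · rw [if_pos hs, if_pos hs, RR_even hs]
        rcases vl_cases A with ⟨h1, h2⟩ | ⟨h1, h2⟩
        · rw [if_pos h1, if_neg h2, decide_eq_false (by omega), decide_eq_true (by omega)]
          rw [pow_succ]; ring
        · rw [if_neg h1, if_pos h2, decide_eq_true (by omega), decide_eq_false (by omega)]
          rw [pow_succ]; ring
      · rw [if_neg hs, if_neg hs, RR_odd hs]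
        rcases vl_cases A with ⟨h1, h2⟩ | ⟨h1, h2⟩
        · rw [decide_eq_false (by omega), decide_eq_true (by omega)]
          rw [pow_succ]; ring
        · rw [decide_eq_true (by omega), decide_eq_false (by omega)]
          rw [pow_succ]; ring
    intro A B
    rcases le_or_gt A.1 B.1 with h | h
    · exact main A B h
    · have h1 := main B A h.le
      have h2 : st B A = st A B := by
        unfold st
        rw [if_pos h.le, if_neg (by omega)]
      rw [h2] at h1
      have h3 : (3 : ℝ) ^ B.1 * 3 ^ A.1 = 3 ^ A.1 * 3 ^ B.1 := mul_comm _ _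
      rw [h3] at h1
      rw [← h1]
      apply av_congr
      intro l _
      have h4 : nq (fl l A) (fl l B) = nq (fl l B) (fl l A) := by
        unfold nq
        by_cases h5 : fl l A = fl l B
        · rw [if_pos h5, if_pos h5.symm]
        · rw [if_neg h5, if_neg (fun h6 => h5 h6.symm)]
      rw [h4, mul_comm ((3 : ℝ) ^ (fl l A).1)]

end Pool.Agent.K7.H66.EX
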