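import Pool.Agent.K7.H66.EX.B

/-!
Clusters of large excursions, part 3: the mass of the coalesced words.
-/

set_option autoImplicit false

namespace Pool.Agent.K7.H66.EX

open Finset Filter Topology Pool.Agent.H499R2.CO Pool.Agent.W38.CR Pool.Agent.K7.H66.CW

/-- The forms of the family agree after the word. -/
def co (F : Finset (ℕ × ℤ)) (l : List Bool) : Prop := ∀ A ∈ F, ∀ B ∈ F, fl l A = fl l B

theorem co_append {F : Finset (ℕ × ℤ)} {l : List Bool} (h : co F l) (l' : List Bool) : co F (l ++ l') := by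
  intro A hA B hB
  rw [fl_append, fl_append, h A hA B hB]

/-- The mass of the coalesced words of length `K`. -/
noncomputable def ms (K : ℕ) (F : Finset (ℕ × ℤ)) (A : ℕ × ℤ) : ℝ :=
  av K (fun l => ind (co F l) * 3 ^ (fl l A).1) / 2 ^ K

theorem av_three (K : ℕ) (A : ℕ × ℤ) : av K (fun l => (3 : ℝ) ^ (fl l A).1) = 2 ^ K * 3 ^ A.1 := by
  have h := av_pow A 3 K
  have e : ∀ l : List Bool, (3 : ℝ) ^ (fl l A).1 = 3 ^ A.1 * 3 ^ dl l A := by
    intro l
    rw [← dl_add l A, pow_add]
  simp only [e]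
  rw [av_smul, h]
  norm_num
  ring

theorem ms_nonneg (K : ℕ) (F : Finset (ℕ × ℤ)) (A : ℕ × ℤ) : 0 ≤ ms K F A :=
  div_nonneg (av_nonneg fun l _ => mul_nonneg (ind_nonneg _) (by positivity)) (by positivity)

theorem ms_le (K : ℕ) (F : Finset (ℕ × ℤ)) (A : ℕ × ℤ) : ms K F A ≤ 3 ^ A.1 := by
  unfold ms
  rw [div_le_iff₀ (by positivity), mul_comm ((3 : ℝ) ^ A.1), ← av_three]
  apply av_mono
  intro l _
  have := ind_le_one (co F l)
  have h3 : (0 : ℝ) ≤ 3 ^ (fl l A).1 := by positivity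
  nlinarith

theorem ms_eq (K : ℕ) {F : Finset (ℕ × ℤ)} {A B : ℕ × ℤ} (hA : A ∈ F) (hB : B ∈ F) : ms K F A = ms K F B := by
  unfold ms
  congr 1
  apply av_congr
  intro l _
  by_cases h : co F l
  · rw [h A hA B hB]
  · rw [ind_neg h, zero_mul, zero_mul]

theorem ms_mono (F : Finset (ℕ × ℤ)) (A : ℕ × ℤ) : Monotone (fun K => ms K F A) := by
  apply monotone_nat_of_le_succ
  intro K
  unfold ms
  rw [av_append K 1, pow_succ, div_le_div_iff₀ (by positivity) (by positivity)]
  have h : av K (fun l => ind (co F l) * 3 ^ (fl l A).1) * 2 ≤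
      av K (fun l => av 1 (fun l' => ind (co F (l ++ l')) * 3 ^ (fl (l ++ l') A).1)) := by
    rw [mul_comm, ← av_smul]
    apply av_mono
    intro l _
    by_cases hl : co F l
    · rw [ind_pos hl, one_mul]
      have h1 := av_three 1 (fl l A)
      rw [pow_one] at h1
      rw [← h1]
      apply le_of_eq
      apply av_congr
      intro l' _
      rw [ind_pos (co_append hl l'), one_mul, fl_append]
    · rw [ind_neg hl, zero_mul, mul_zero]
      exact av_nonneg fun l' _ => mul_nonneg (ind_nonneg _) (by positivity)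
  have h2 : (0 : ℝ) < 2 ^ K := by positivity
  calc av K (fun l => ind (co F l) * 3 ^ (fl l A).1) * (2 ^ K * 2) =
        (av K (fun l => ind (co F l) * 3 ^ (fl l A).1) * 2) * 2 ^ K := by ring
    _ ≤ _ := mul_le_mul_of_nonneg_right h h2.le

/-- The limit of the masses. -/
noncomputable def pF (F : Finset (ℕ × ℤ)) (A : ℕ × ℤ) : ℝ := ⨆ K, ms K F A

theorem ms_bdd (F : Finset (ℕ × ℤ)) (A : ℕ × ℤ) : BddAbove (Set.range fun K => ms K F A) :=
  ⟨3 ^ A.1, by rintro _ ⟨K, rfl⟩; exact ms_le K F A⟩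

theorem ms_tendsto (F : Finset (ℕ × ℤ)) (A : ℕ × ℤ) : Tendsto (fun K => ms K F A) atTop (𝓝 (pF F A)) :=
  tendsto_atTop_ciSup (ms_mono F A) (ms_bdd F A)

theorem ms_le_pF (K : ℕ) (F : Finset (ℕ × ℤ)) (A : ℕ × ℤ) : ms K F A ≤ pF F A := le_ciSup (ms_bdd F A) K

theorem pF_le (F : Finset (ℕ × ℤ)) (A : ℕ × ℤ) : pF F A ≤ 3 ^ A.1 := le_of_tendsto' (ms_tendsto F A) fun K => ms_le K F A

theorem pF_eq {F : Finset (ℕ × ℤ)} {A B : ℕ × ℤ} (hA : A ∈ F) (hB : B ∈ F) : pF F A = pF F B := by
  unfold pF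
  simp only [ms_eq _ hA hB]

theorem pF_single (A : ℕ × ℤ) : pF {A} A = 3 ^ A.1 := by
  refine tendsto_nhds_unique (ms_tendsto {A} A) ?_
  have : (fun K => ms K {A} A) = fun _ => (3 : ℝ) ^ A.1 := by
    funext K
    unfold ms
    have h : av K (fun l => ind (co {A} l) * (3 : ℝ) ^ (fl l A).1) = av K (fun l => (3 : ℝ) ^ (fl l A).1) := by
      apply av_congr
      intro l _
      rw [ind_pos, one_mul]
      intro B hB D hD
      rw [mem_singleton] at hB hD
      rw [hB, hD]
    rw [h, av_three]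
    field_simp
  rw [this]; exact tendsto_const_nhds

/-- Some word leads to coalescence. -/
theorem pF_pos (F : Finset (ℕ × ℤ)) (A : ℕ × ℤ) : 0 < pF F A := by
  have h1 : Tendsto (fun K => ∑ B ∈ F, q step (0, 0) K (st B A)) atTop (𝓝 (∑ _B ∈ F, (0 : ℝ))) :=
    tendsto_finsetSum _ fun B _ => q_lim (st B A)
  rw [sum_const_zero] at h1
  obtain ⟨K, hK⟩ := (h1.eventually (gt_mem_nhds (show (0 : ℝ) < 1 by norm_num))).exists
  refine lt_of_lt_of_le ?_ (ms_le_pF K F A)
  unfold ms
  apply div_pos _ (by positivity)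
  have h2 : 1 - ∑ B ∈ F, q step (0, 0) K (st B A) ≤ av K (fun l => ind (co F l) * 3 ^ (fl l A).1) := by
    have e : 1 - ∑ B ∈ F, q step (0, 0) K (st B A) = av K (fun l => 1 + (-1) * ∑ B ∈ F, nq (fl l B) (fl l A)) := by
      rw [av_add, av_const, av_smul, av_sum]
      simp only [av_ne]
      ring
    rw [e]
    apply av_mono
    intro l _
    by_cases hl : co F l
    · rw [ind_pos hl, one_mul]
      have h3 : (0 : ℝ) ≤ ∑ B ∈ F, nq (fl l B) (fl l A) := sum_nonneg fun B _ => nq_nonneg _ _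
      have h4 : (1 : ℝ) ≤ 3 ^ (fl l A).1 := one_le_pow₀ (by norm_num)
      linarith
    · rw [ind_neg hl, zero_mul]
      have h3 : ∃ B ∈ F, fl l B ≠ fl l A := by
        by_contra hcon
        push Not at hcon
        exact hl fun B hB D hD => (hcon B hB).trans (hcon D hD).symm
      obtain ⟨B, hB, hBA⟩ := h3
      have h4 := single_le_sum (f := fun B => nq (fl l B) (fl l A)) (fun B _ => nq_nonneg _ _) hB
      simp only [nq_ne hBA] at h4
      linarith
  linarith

/-- Two forms with the same exponent lose at least one half. -/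
theorem av_half (K : ℕ) : ∀ A B : ℕ × ℤ, A ≠ B → A.1 = B.1 →
    av K (fun l => (1 - nq (fl l A) (fl l B)) * 3 ^ (fl l A).1) ≤ 2 ^ K * 3 ^ A.1 / 2 := by
  have cap : ∀ (K : ℕ) (A B : ℕ × ℤ), av K (fun l => (1 - nq (fl l A) (fl l B)) * (3 : ℝ) ^ (fl l A).1) ≤
      2 ^ K * 3 ^ A.1 := by
    intro K A B
    rw [← av_three]
    apply av_mono
    intro l _
    have := nq_nonneg (fl l A) (fl l B)
    have h3 : (0 : ℝ) ≤ 3 ^ (fl l A).1 := by positivity
    nlinarith
  have cap' : ∀ (K : ℕ) (A B : ℕ × ℤ), av K (fun l => (1 - nq (fl l A) (fl l B)) * (3 : ℝ) ^ (fl l A).1) ≤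
      2 ^ K * 3 ^ B.1 := by
    intro K A B
    refine le_trans (le_of_eq (av_congr fun l _ => ?_)) (cap K B A)
    by_cases h : fl l A = fl l B
    · rw [h]
    · rw [nq_ne h, nq_ne (fun h' => h h'.symm)]; ring
  induction K with
  | zero =>
    intro A B h _
    change (1 - nq A B) * 3 ^ A.1 ≤ _
    rw [nq_ne h]
    have : (0 : ℝ) < 3 ^ A.1 := by positivity
    rw [sub_self, zero_mul]
    positivity
  | succ K ih =>
    intro A B h h1
    simp only [av, fl]
    have hP : (0 : ℝ) < 2 ^ K * 3 ^ A.1 := by positivity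
    have vd : ∀ b, vl b A - vl b B = A.2 - B.2 := by
      intro b; unfold vl; rw [h1]; ring
    by_cases hp : (A.2 - B.2) % 2 = 0
    · have key : ∀ b, fs b A ≠ fs b B ∧ (fs b A).1 = (fs b B).1 := by
        intro b
        have hv := vd b
        by_cases h2 : vl b A % 2 = 0
        · have h3 : vl b B % 2 = 0 := by omega
          rw [fs_even h2, fs_even h3]
          refine ⟨fun h4 => h ?_, h1⟩
          rw [Prod.mk.injEq] at h4
          exact Prod.ext h1 (by omega)
        · have h3 : ¬ vl b B % 2 = 0 := by omega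
          rw [fs_odd h2, fs_odd h3]
          refine ⟨fun h4 => h ?_, by simp only; omega⟩
          rw [Prod.mk.injEq] at h4
          exact Prod.ext h1 (by omega)
      have h2 := ih _ _ (key false).1 (key false).2
      have h3 := ih _ _ (key true).1 (key true).2
      have h4 := two_steps A (fun i => (2 : ℝ) ^ K * 3 ^ i / 2)
      have h5 : (2 : ℝ) ^ K * 3 ^ (A.1 + 1) / 2 = 3 * (2 ^ K * 3 ^ A.1 / 2) := by rw [pow_succ]; ring
      have h6 : (2 : ℝ) ^ (K + 1) * 3 ^ A.1 / 2 = 2 ^ K * 3 ^ A.1 := by rw [pow_succ]; ring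
      rw [h6]
      linarith
    · have key : ∀ b, av K (fun l => (1 - nq (fl l (fs b A)) (fl l (fs b B))) * (3 : ℝ) ^ (fl l (fs b A)).1) ≤
          2 ^ K * 3 ^ A.1 := by
        intro b
        have hv := vd b
        by_cases h2 : vl b A % 2 = 0
        · have := cap K (fs b A) (fs b B)
          rw [fs_even h2] at this ⊢
          exact this
        · have h3 : vl b B % 2 = 0 := by omega
          have := cap' K (fs b A) (fs b B)
          rw [fs_even h3] at this ⊢
          rw [h1]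
          exact this
      have h2 := key false
      have h3 := key true
      have h6 : (2 : ℝ) ^ (K + 1) * 3 ^ A.1 / 2 = 2 ^ K * 3 ^ A.1 := by rw [pow_succ]; ring
      rw [h6]
      linarith

theorem pF_half {F : Finset (ℕ × ℤ)} {A B : ℕ × ℤ} (hA : A ∈ F) (hB : B ∈ F) (h : A ≠ B) (h1 : A.1 = B.1) :
    pF F A ≤ 3 ^ A.1 / 2 := by
  refine le_of_tendsto' (ms_tendsto F A) fun K => ?_
  unfold ms
  rw [div_le_iff₀ (by positivity)]
  refine le_trans (av_mono fun l _ => ?_) ((av_half K A B h h1).trans (le_of_eq (by ring)))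
  by_cases hl : co F l
  · rw [ind_pos hl, hl A hA B hB, nq_self]; norm_num
  · rw [ind_neg hl, zero_mul]
    exact mul_nonneg (by have := nq_le_one (fl l A) (fl l B); linarith) (by positivity)

end Pool.Agent.K7.H66.EX
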