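import Pool.Agent.K7.H66.EX.C

/-!
Clusters of large excursions, part 4: the joint law in the model.
-/

set_option autoImplicit false

namespace Pool.Agent.K7.H66.EX

open Finset Filter Topology Pool.Agent.H499R2.CO Pool.Agent.W38.CR Pool.Agent.K7.H66.CW

open Pool.Agent.W36.SL (s p C)

/-- The proportion of the words of length `K` along which all the forms of the family reach their thresholds. -/
noncomputable def Jn (K : ℕ) (F : Finset (ℕ × ℤ)) (θ : ℕ × ℤ → ℝ) : ℝ :=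
  av K (fun l => ind (∀ A ∈ F, Up l A (θ A)))

theorem Jn_nonneg (K : ℕ) (F : Finset (ℕ × ℤ)) (θ : ℕ × ℤ → ℝ) : 0 ≤ Jn K F θ := av_nonneg fun l _ => ind_nonneg _

theorem Jn_le_one (K : ℕ) (F : Finset (ℕ × ℤ)) (θ : ℕ × ℤ → ℝ) : Jn K F θ ≤ 1 := by
  rw [← av_const K 1]; exact av_mono fun l _ => ind_le_one _

theorem Jn_mono (F : Finset (ℕ × ℤ)) (θ : ℕ × ℤ → ℝ) : Monotone (fun K => Jn K F θ) := by
  apply monotone_nat_of_le_succ
  intro K
  unfold Jn
  rw [av_append K 1]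
  apply av_mono
  intro l _
  rw [← av_const 1 (ind (∀ A ∈ F, Up l A (θ A)))]
  apply av_mono
  intro l' _
  apply ind_mono
  intro h A hA
  rw [Up_append]
  exact Or.inl (h A hA)

/-- The limit. -/
noncomputable def Jl (F : Finset (ℕ × ℤ)) (θ : ℕ × ℤ → ℝ) : ℝ := ⨆ K, Jn K F θ

theorem Jn_tendsto (F : Finset (ℕ × ℤ)) (θ : ℕ × ℤ → ℝ) : Tendsto (fun K => Jn K F θ) atTop (𝓝 (Jl F θ)) :=
  tendsto_atTop_ciSup (Jn_mono F θ) ⟨1, by rintro _ ⟨K, rfl⟩; exact Jn_le_one K F θ⟩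

theorem Jl_nonneg (F : Finset (ℕ × ℤ)) (θ : ℕ × ℤ → ℝ) : 0 ≤ Jl F θ :=
  ge_of_tendsto' (Jn_tendsto F θ) fun K => Jn_nonneg K F θ

/-- After coalescence the excursions are the same. -/
theorem inner_co {F : Finset (ℕ × ℤ)} (hF : F.Nonempty) (θ : ℕ × ℤ → ℝ) {B : ℕ × ℤ} {c : ℝ} (hc : 0 < c) (m : ℕ) :
    av m (fun l' => ind (∀ A ∈ F, Up l' B (c * θ A))) = 1 - s m (c * F.sup' hF θ / 3 ^ B.1) := by
  rw [← av_Up]
  apply av_congr
  intro l' _
  congr 1
  rw [eq_iff_iff]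
  constructor
  · intro h
    obtain ⟨A, hA, hA2⟩ := Finset.exists_mem_eq_sup' hF θ
    rw [hA2]; exact h A hA
  · intro h A hA
    exact Up_anti l' B (mul_le_mul_of_nonneg_left (Finset.le_sup' θ hA) hc.le) h

theorem Jn_split {F : Finset (ℕ × ℤ)} (hF : F.Nonempty) {θ : ℕ × ℤ → ℝ} (K m : ℕ)
    (hK : ∀ A ∈ F, (3 : ℝ) ^ (A.1 + K) < θ A) :
    Jn (K + m) F θ = av K (fun l => av m (fun l' => ind (∀ A ∈ F, Up l' (fl l A) (2 ^ K * θ A)))) := by
  unfold Jn
  rw [av_append]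
  apply av_congr
  intro l hl
  apply av_congr
  intro l' _
  congr 1
  rw [eq_iff_iff]
  constructor
  · intro h A hA
    have h1 := h A hA
    rw [Up_append, hl] at h1
    rcases h1 with h1 | h1
    · exact absurd h1 (not_Up l A (by rw [hl]; exact hK A hA))
    · exact h1
  · intro h A hA
    rw [Up_append, hl]
    exact Or.inr (h A hA)

/-- The coalesced part. -/
noncomputable def mc (K m : ℕ) (F : Finset (ℕ × ℤ)) (A : ℕ × ℤ) (Θ : ℝ) : ℝ :=
  av K (fun l => ind (co F l) * (1 - s m (2 ^ K * Θ / 3 ^ (fl l A).1)))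

/-- The part which has not coalesced. -/
noncomputable def rs (K : ℕ) (F : Finset (ℕ × ℤ)) (A : ℕ × ℤ) (θ : ℕ × ℤ → ℝ) : ℝ :=
  ∑ B ∈ F, √ (3 ^ B.1 * 3 ^ A.1) * RR K (st B A) / √ (θ B * θ A)

theorem Jn_lower {F : Finset (ℕ × ℤ)} (hF : F.Nonempty) {A : ℕ × ℤ} (hA : A ∈ F) {θ : ℕ × ℤ → ℝ} (K m : ℕ)
    (hK : ∀ A ∈ F, (3 : ℝ) ^ (A.1 + K) < θ A) : mc K m F A (F.sup' hF θ) ≤ Jn (K + m) F θ := by
  rw [Jn_split hF K m hK]
  unfold mc
  apply av_mono
  intro l _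
  by_cases h : co F l
  · rw [ind_pos h, one_mul, ← inner_co hF θ (B := fl l A) (c := 2 ^ K) (by positivity) m]
    apply av_mono
    intro l' _
    apply ind_mono
    intro h1 B hB
    rw [h B hB A hA]
    exact h1 B hB
  · rw [ind_neg h, zero_mul]
    exact av_nonneg fun l' _ => ind_nonneg _

theorem Jn_upper {F : Finset (ℕ × ℤ)} (hF : F.Nonempty) {A : ℕ × ℤ} (hA : A ∈ F) {θ : ℕ × ℤ → ℝ} (K m : ℕ)
    (hK : ∀ A ∈ F, (3 : ℝ) ^ (A.1 + K) < θ A) : Jn (K + m) F θ ≤ mc K m F A (F.sup' hF θ) + rs K F A θ := by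
  have hθ : ∀ B ∈ F, 0 < θ B := fun B hB => lt_trans (by positivity) (hK B hB)
  rw [Jn_split hF K m hK]
  have e : rs K F A θ = av K (fun l => ∑ B ∈ F, (1 / (2 ^ K * √ (θ B * θ A))) *
      (nq (fl l B) (fl l A) * √ (3 ^ (fl l B).1 * 3 ^ (fl l A).1))) := by
    rw [av_sum]
    unfold rs
    apply sum_congr rfl
    intro B hB
    rw [av_smul, av_geo]
    have h1 : (0 : ℝ) < √ (θ B * θ A) := Real.sqrt_pos.2 (mul_pos (hθ B hB) (hθ A hA))
    field_simp
  rw [e]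
  unfold mc
  rw [← av_add]
  apply av_mono
  intro l _
  have h0 : ∀ B ∈ F, 0 ≤ (1 / (2 ^ K * √ (θ B * θ A))) * (nq (fl l B) (fl l A) * √ (3 ^ (fl l B).1 * 3 ^ (fl l A).1)) :=
    fun B _ => mul_nonneg (by positivity) (mul_nonneg (nq_nonneg _ _) (Real.sqrt_nonneg _))
  by_cases h : co F l
  · rw [ind_pos h, one_mul, ← inner_co hF θ (B := fl l A) (c := 2 ^ K) (by positivity) m]
    have h1 : av m (fun l' => ind (∀ B ∈ F, Up l' (fl l B) (2 ^ K * θ B))) ≤
        av m (fun l' => ind (∀ B ∈ F, Up l' (fl l A) (2 ^ K * θ B))) := by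
      apply av_mono
      intro l' _
      apply ind_mono
      intro h1 B hB
      rw [h A hA B hB]
      exact h1 B hB
    have := sum_nonneg h0
    linarith
  · rw [ind_neg h, zero_mul, zero_add]
    have h3 : ∃ B ∈ F, fl l B ≠ fl l A := by
      by_contra hcon
      push Not at hcon
      exact h fun B hB D hD => (hcon B hB).trans (hcon D hD).symm
    obtain ⟨B, hB, hBA⟩ := h3
    refine le_trans ?_ (single_le_sum h0 hB)
    rw [nq_ne hBA, one_mul]
    have h4 := av_two_le m (fl l B) (fl l A) (θ := 2 ^ K * θ B) (θ' := 2 ^ K * θ A)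
      (mul_pos (by positivity) (hθ B hB)) (mul_pos (by positivity) (hθ A hA))
    have h5 : √ (2 ^ K * θ B * (2 ^ K * θ A)) = 2 ^ K * √ (θ B * θ A) := by
      have : (2 : ℝ) ^ K * θ B * (2 ^ K * θ A) = (2 ^ K) ^ 2 * (θ B * θ A) := by ring
      rw [this, Real.sqrt_mul (by positivity), Real.sqrt_sq (by positivity)]
    rw [h5] at h4
    rw [one_div, inv_mul_eq_div]
    refine le_trans (av_mono fun l' _ => ind_mono fun h6 => ⟨h6 B hB, h6 A hA⟩) h4

/-- The coalesced part in the limit. -/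
noncomputable def ml (K : ℕ) (F : Finset (ℕ × ℤ)) (A : ℕ × ℤ) (Θ : ℝ) : ℝ :=
  av K (fun l => ind (co F l) * p (2 ^ K * Θ / 3 ^ (fl l A).1))

theorem av_tendsto (K : ℕ) : ∀ {f : ℕ → List Bool → ℝ} {g : List Bool → ℝ},
    (∀ l, Tendsto (fun m => f m l) atTop (𝓝 (g l))) → Tendsto (fun m => av K (f m)) atTop (𝓝 (av K g)) := by
  induction K with
  | zero => intro f g h; exact h []
  | succ K ih =>
    intro f g h
    exact ((ih (f := fun m l => f m (false :: l)) fun l => h _).add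
      (ih (f := fun m l => f m (true :: l)) fun l => h _)).div_const 2

theorem av_tendsto' {α : Type*} {lf : Filter α} (K : ℕ) : ∀ {f : α → List Bool → ℝ} {g : List Bool → ℝ},
    (∀ l, Tendsto (fun m => f m l) lf (𝓝 (g l))) → Tendsto (fun m => av K (f m)) lf (𝓝 (av K g)) := by
  induction K with
  | zero => intro f g h; exact h []
  | succ K ih =>
    intro f g h
    exact ((ih (f := fun m l => f m (false :: l)) fun l => h _).add
      (ih (f := fun m l => f m (true :: l)) fun l => h _)).div_const 2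

theorem mc_tendsto (K : ℕ) (F : Finset (ℕ × ℤ)) (A : ℕ × ℤ) (Θ : ℝ) :
    Tendsto (fun m => mc K m F A Θ) atTop (𝓝 (ml K F A Θ)) := by
  unfold mc ml
  apply av_tendsto
  intro l
  exact ((Pool.Agent.W36.SL.s_tendsto _).const_sub 1).const_mul _

theorem Jl_bounds {F : Finset (ℕ × ℤ)} (hF : F.Nonempty) {A : ℕ × ℤ} (hA : A ∈ F) {θ : ℕ × ℤ → ℝ} (K : ℕ)
    (hK : ∀ A ∈ F, (3 : ℝ) ^ (A.1 + K) < θ A) :
    ml K F A (F.sup' hF θ) ≤ Jl F θ ∧ Jl F θ ≤ ml K F A (F.sup' hF θ) + rs K F A θ := by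
  have h1 : Tendsto (fun m => Jn (K + m) F θ) atTop (𝓝 (Jl F θ)) := by
    have := (Jn_tendsto F θ).comp (tendsto_add_atTop_nat K)
    refine this.congr fun m => ?_
    simp only [Function.comp]
    rw [add_comm]
  have h2 := mc_tendsto K F A (F.sup' hF θ)
  exact ⟨le_of_tendsto_of_tendsto' h2 h1 fun m => Jn_lower hF hA K m hK,
    le_of_tendsto_of_tendsto' h1 (h2.add_const _) fun m => Jn_upper hF hA K m hK⟩

theorem rs_scale (K : ℕ) (F : Finset (ℕ × ℤ)) (A : ℕ × ℤ) (θ : ℕ × ℤ → ℝ) {t : ℝ} (ht : 0 < t) :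
    t * rs K F A (fun B => t * θ B) = rs K F A θ := by
  unfold rs
  rw [mul_sum]
  apply sum_congr rfl
  intro B _
  have e : √ (t * θ B * (t * θ A)) = t * √ (θ B * θ A) := by
    have : t * θ B * (t * θ A) = t ^ 2 * (θ B * θ A) := by ring
    rw [this, Real.sqrt_mul (by positivity), Real.sqrt_sq ht.le]
  rw [e]
  field_simp

theorem rs_tendsto (F : Finset (ℕ × ℤ)) (A : ℕ × ℤ) (θ : ℕ × ℤ → ℝ) :
    Tendsto (fun K => rs K F A θ) atTop (𝓝 0) := by
  have h : Tendsto (fun K => rs K F A θ) atTop (𝓝 (∑ B ∈ F, √ (3 ^ B.1 * 3 ^ A.1) * 0 / √ (θ B * θ A))) :=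
    tendsto_finsetSum _ fun B _ => ((RR_lim (st B A)).const_mul _).div_const _
  simpa using h

theorem ml_scale (K : ℕ) (F : Finset (ℕ × ℤ)) (A : ℕ × ℤ) {Θ : ℝ} (hΘ : 0 < Θ) :
    Tendsto (fun t : ℝ => t * ml K F A (t * Θ)) atTop (𝓝 (C * ms K F A / Θ)) := by
  have h1 : ∀ t : ℝ, t * ml K F A (t * Θ) =
      av K (fun l => ind (co F l) * (t * p (2 ^ K * (t * Θ) / 3 ^ (fl l A).1))) := by
    intro t
    unfold ml
    rw [← av_smul]
    apply av_congr
    intro l _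
    ring
  simp only [h1]
  have h2 : C * ms K F A / Θ = av K (fun l => ind (co F l) * (C * (3 ^ (fl l A).1 / (2 ^ K * Θ)))) := by
    unfold ms
    have : ∀ l : List Bool, ind (co F l) * (C * ((3 : ℝ) ^ (fl l A).1 / (2 ^ K * Θ))) =
        (C / (2 ^ K * Θ)) * (ind (co F l) * 3 ^ (fl l A).1) := by intro l; ring
    simp only [this]
    rw [av_smul]
    field_simp
  rw [h2]
  apply av_tendsto'
  intro l
  apply Tendsto.const_mul
  set c : ℝ := 2 ^ K * Θ / 3 ^ (fl l A).1 with hc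
  have hc0 : 0 < c := by positivity
  have h3 : Tendsto (fun t : ℝ => c * t) atTop atTop := tendsto_id.const_mul_atTop hc0
  have h4 := (Pool.Agent.W36.SL.p_tendsto.comp h3).div_const c
  have e : C * (3 ^ (fl l A).1 / (2 ^ K * Θ)) = C / c := by rw [hc]; field_simp
  rw [e]
  refine h4.congr fun t => ?_
  simp only [Function.comp]
  have e2 : (2 : ℝ) ^ K * (t * Θ) / 3 ^ (fl l A).1 = c * t := by rw [hc]; ring
  rw [e2]
  field_simp

/-- THE JOINT LAW OF THE LARGE EXCURSIONS IN THE MODEL. -/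
theorem Jl_law {F : Finset (ℕ × ℤ)} (hF : F.Nonempty) {A : ℕ × ℤ} (hA : A ∈ F) {θ : ℕ × ℤ → ℝ}
    (hθ : ∀ A ∈ F, 0 < θ A) :
    Tendsto (fun t : ℝ => t * Jl F (fun B => t * θ B)) atTop (𝓝 (C * pF F A / F.sup' hF θ)) := by
  have hΘ : 0 < F.sup' hF θ := by
    obtain ⟨B, hB, hB2⟩ := Finset.exists_mem_eq_sup' hF θ
    rw [hB2]; exact hθ B hB
  set Θ := F.sup' hF θ with hΘdef
  rw [Metric.tendsto_nhds]
  intro ε hε
  have h1 : Tendsto (fun K => C * ms K F A / Θ) atTop (𝓝 (C * pF F A / Θ)) :=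
    ((ms_tendsto F A).const_mul C).div_const Θ
  obtain ⟨K, hK1, hK2⟩ := ((Metric.tendsto_nhds.1 h1 (ε / 4) (by positivity)).and
    (Metric.tendsto_nhds.1 (rs_tendsto F A θ) (ε / 4) (by positivity))).exists
  have h2 := Metric.tendsto_nhds.1 (ml_scale K F A hΘ) (ε / 4) (by positivity)
  have h3 : ∀ᶠ t : ℝ in atTop, ∀ B ∈ F, (3 : ℝ) ^ (B.1 + K) < t * θ B := by
    rw [Filter.eventually_all_finset]
    intro B hB
    have := tendsto_id.atTop_mul_const (hθ B hB)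
    exact this.eventually (eventually_gt_atTop _)
  filter_upwards [h2, h3, eventually_gt_atTop 0] with t g1 g2 g3
  obtain ⟨g4, g5⟩ := Jl_bounds hF hA K g2
  have g6 : F.sup' hF (fun B => t * θ B) = t * Θ := by
    rw [hΘdef]
    apply le_antisymm
    · apply Finset.sup'_le
      intro B hB
      exact mul_le_mul_of_nonneg_left (Finset.le_sup' θ hB) g3.le
    · obtain ⟨B, hB, hB2⟩ := Finset.exists_mem_eq_sup' hF θ
      rw [hB2]
      exact Finset.le_sup' (fun B => t * θ B) hB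
  rw [g6] at g4 g5
  have g7 := mul_le_mul_of_nonneg_left g4 g3.le
  have g8 := mul_le_mul_of_nonneg_left g5 g3.le
  rw [mul_add, rs_scale K F A θ g3] at g8
  rw [Real.dist_eq, abs_lt] at *
  constructor <;> linarith [g1.1, g1.2, hK1.1, hK1.2, hK2.1, hK2.2]

end Pool.Agent.K7.H66.EX
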