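import Pool.Agent.K7.H66.EX.D
import Pool.Agent.W38.CRf
import Pool.Agent.H499R2.NDWord

/-!
Clusters of large excursions, part 5: from the words to the integers.
-/

set_option autoImplicit false

namespace Pool.Agent.K7.H66.EX

open Finset Filter Topology Pool.Agent.H499R2.CO Pool.Agent.W38.CR Pool.Agent.K7.H66.CW

open Pool.Agent.H499R2.ND (cnt cnt_eq cnt_mono cnt_or Dn Tn Tn_eq Bdd AK)
open Pool.Agent.Helper894.Collatz (od T)

/-- The form `3 ^ i n + r`. -/
def fm (A : ℕ × ℕ) (n : ℕ) : ℕ := 3 ^ A.1 * n + A.2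

/-- The form as a form with an integral constant term. -/
def za (A : ℕ × ℕ) : ℕ × ℤ := (A.1, (A.2 : ℤ))

theorem za_inj : Function.Injective za := by
  rintro ⟨a, b⟩ ⟨c, d⟩ h
  unfold za at h
  simp only [Prod.mk.injEq, Nat.cast_inj] at h
  exact Prod.ext h.1 h.2

theorem fm_ev (A : ℕ × ℕ) (n : ℕ) : ((fm A n : ℕ) : ℤ) = ev (za A) (n : ℤ) := by
  unfold fm za ev; push_cast; ring

theorem T_cast (m : ℕ) : Tz 1 (m : ℤ) = ((T m : ℕ) : ℤ) := by
  unfold Tz T
  rcases Nat.mod_two_eq_zero_or_one m with h | h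
  · rw [if_pos (by omega), if_pos h]; omega
  · rw [if_neg (by omega), if_neg (by omega)]; omega

theorem T_iter_cast (k : ℕ) : ∀ m : ℕ, (Tz 1)^[k] (m : ℤ) = ((T^[k] m : ℕ) : ℤ) := by
  induction k with
  | zero => intro m; rfl
  | succ k ih => intro m; rw [Function.iterate_succ_apply, Function.iterate_succ_apply, T_cast, ih]

theorem od_one (j n : ℕ) : od (j + 1) n = n % 2 + od j (T n) := by
  unfold od
  rw [sum_range_succ', add_comm]
  rfl

theorem bit_split (x : ℕ) : (x : ℤ) = 2 * ((x / 2 : ℕ) : ℤ) + bz (decide (x % 2 = 1)) := by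
  rw [bz_bit]; omega

theorem step_form {A : ℕ × ℤ} {x m : ℕ} (h : (m : ℤ) = ev A (x : ℤ)) :
    ((T m : ℕ) : ℤ) = ev (fs (decide (x % 2 = 1)) A) ((x / 2 : ℕ) : ℤ) ∧
      (fs (decide (x % 2 = 1)) A).1 = A.1 + m % 2 := by
  set b := decide (x % 2 = 1) with hb
  have e : ev A (x : ℤ) = 2 * (3 ^ A.1 * ((x / 2 : ℕ) : ℤ)) + vl b A := by
    rw [bit_split x, ← hb]; unfold ev vl; ring
  refine ⟨?_, ?_⟩
  · rw [← T_cast, h, bit_split x, ← hb, Tz_ev]
  · rw [e] at h
    by_cases h1 : vl b A % 2 = 0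
    · rw [fs_even h1]; simp only; omega
    · rw [fs_odd h1]; simp only; omega

/-- The excursions of a form along the bits of `x`. -/
theorem Up_bits (K : ℕ) : ∀ (x : ℕ) (A : ℕ × ℤ) (θ : ℝ) (m : ℕ), (m : ℤ) = ev A (x : ℤ) →
    (Up (bits K x) A θ ↔ ∃ k ≤ K, 2 ^ k * θ ≤ 3 ^ (A.1 + od k m)) := by
  induction K with
  | zero =>
    intro x A θ m h
    simp only [bits, Up]
    constructor
    · intro h1; exact ⟨0, le_rfl, by simpa [od] using h1⟩
    · rintro ⟨k, hk, h1⟩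
      have : k = 0 := by omega
      subst this
      simpa [od] using h1
  | succ K ih =>
    intro x A θ m h
    simp only [bits, Up]
    obtain ⟨h1, h2⟩ := step_form h
    rw [ih (x / 2) _ (2 * θ) (T m) h1, h2]
    constructor
    · rintro (h3 | ⟨k, hk, h3⟩)
      · exact ⟨0, by omega, by simpa [od] using h3⟩
      · refine ⟨k + 1, by omega, ?_⟩
        rw [od_one, pow_succ, ← add_assoc]
        linarith
    · rintro ⟨k, hk, h3⟩
      rcases Nat.eq_zero_or_pos k with h0 | h0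
      · subst h0; left; simpa [od] using h3
      · obtain ⟨j, rfl⟩ : ∃ j, k = j + 1 := ⟨k - 1, by omega⟩
        right
        refine ⟨j, by omega, ?_⟩
        rw [od_one, pow_succ, ← add_assoc] at h3
        linarith

/-- The form after `K` steps. -/
theorem fl_bits (K : ℕ) : ∀ (x : ℕ) (A : ℕ × ℤ) (m : ℕ), (m : ℤ) = ev A (x : ℤ) →
    (fl (bits K x) A).1 = A.1 + od K m ∧ ((T^[K] m : ℕ) : ℤ) = ev (fl (bits K x) A) ((x / 2 ^ K : ℕ) : ℤ) := by
  induction K with
  | zero => intro x A m h; refine ⟨by simp [bits, fl, od], by simpa [bits, fl] using h⟩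
  | succ K ih =>
    intro x A m h
    obtain ⟨h1, h2⟩ := step_form h
    obtain ⟨h3, h4⟩ := ih (x / 2) _ (T m) h1
    simp only [bits, fl]
    refine ⟨by rw [h3, h2, od_one]; ring, ?_⟩
    have e : x / 2 / 2 ^ K = x / 2 ^ (K + 1) := by
      rw [Nat.div_div_eq_div_mul, pow_succ, mul_comm]
    rw [Function.iterate_succ_apply, h4, e]

/-- The safe words and the thresholds. -/
theorem Up_AK {lam : ℝ} (hl : 1 < lam) (K n : ℕ) (A : ℕ × ℕ) :
    Up (bits K n) (za A) (3 ^ A.1 * lam) ↔ ¬ AK K lam (fm A n) := by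
  rw [Up_bits K n (za A) _ (fm A n) (fm_ev A n)]
  unfold AK
  push Not
  have h3 : (0 : ℝ) < 3 ^ A.1 := by positivity
  have e : ∀ k : ℕ, ((2 : ℝ) ^ k * (3 ^ A.1 * lam) ≤ 3 ^ ((za A).1 + od k (fm A n))) ↔
      lam * 2 ^ k ≤ 3 ^ od k (fm A n) := by
    intro k
    have e1 : (3 : ℝ) ^ ((za A).1 + od k (fm A n)) = 3 ^ A.1 * 3 ^ od k (fm A n) := by
      rw [pow_add]; rfl
    have e2 : (2 : ℝ) ^ k * (3 ^ A.1 * lam) = 3 ^ A.1 * (lam * 2 ^ k) := by ring
    rw [e1, e2, mul_le_mul_iff_right₀ h3]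
  constructor
  · rintro ⟨k, hk, h⟩
    refine ⟨k, ?_, hk, (e k).1 h⟩
    rcases Nat.eq_zero_or_pos k with h0 | h0
    · subst h0
      have h1 := (e 0).1 h
      simp [od] at h1
      linarith
    · exact h0
  · rintro ⟨k, _, hk, h⟩
    exact ⟨k, hk, (e k).2 h⟩

/-! ### densities -/

theorem bits_mod (K n : ℕ) : bits K (n % 2 ^ K) = bits K n := by
  conv_rhs => rw [← Nat.div_add_mod n (2 ^ K)]
  rw [bits_add]

/-- The density of the integers with a property of the first `K` bits within an invariant property. -/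
theorem dn_bits {P : ℕ → Prop} {δ : ℝ} (hP : ∀ n, P n ↔ P (Tn n)) (hδ : Dn P δ) (K : ℕ) (Q : List Bool → Prop) :
    Dn (fun n => Q (bits K n) ∧ P n) (av K (fun l => ind (Q l)) * δ) := by
  classical
  have h := Pool.Agent.H499R2.ND.dn_res hP hδ (q := 2 ^ K) (by positivity)
    (R := (range (2 ^ K)).filter (fun r => Q (bits K r)))
    (fun r hr => mem_range.1 (mem_filter.1 hr).1)
  have e : (fun n => n % 2 ^ K ∈ (range (2 ^ K)).filter (fun r => Q (bits K r)) ∧ P n) =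
      fun n => Q (bits K n) ∧ P n := by
    funext n
    rw [mem_filter, mem_range, bits_mod]
    have : n % 2 ^ K < 2 ^ K := Nat.mod_lt _ (by positivity)
    simp [this]
  rw [e] at h
  have h1 := sum_bits K (fun l => ind (Q l))
  have h2 : (((range (2 ^ K)).filter (fun r => Q (bits K r))).card : ℝ) = 2 ^ K * av K (fun l => ind (Q l)) := by
    rw [← h1, card_filter]
    push_cast
    apply sum_congr rfl
    intro r _
    by_cases hr : Q (bits K r)
    · rw [if_pos hr, ind_pos hr]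
    · rw [if_neg hr, ind_neg hr]
  have e2 : av K (fun l => ind (Q l)) * δ =
      (((range (2 ^ K)).filter (fun r => Q (bits K r))).card : ℝ) * (δ / ((2 ^ K : ℕ) : ℝ)) := by
    rw [h2]
    push_cast
    field_simp
  rw [e2]
  exact h

/-- Counting the integers with a property of the first `K` bits. -/
theorem cnt_bits (K N : ℕ) (Q : List Bool → Prop) :
    cnt (fun n => Q (bits K n)) N ≤ (N + 2 ^ K) * av K (fun l => ind (Q l)) := by
  classical
  have h := sum_Icc_bits (F := fun l => ind (Q l)) (fun l => ind_nonneg _) K N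
  refine le_trans (le_of_eq ?_) h
  rw [cnt_eq, card_filter]
  push_cast
  apply sum_congr rfl
  intro r _
  by_cases hr : Q (bits K r)
  · rw [if_pos hr, ind_pos hr]
  · rw [if_neg hr, ind_neg hr]

theorem cnt_ex {ι : Type*} (F : Finset ι) (Q : ι → ℕ → Prop) (N : ℕ) :
    cnt (fun n => ∃ A ∈ F, Q A n) N ≤ ∑ A ∈ F, cnt (Q A) N := by
  classical
  induction F using Finset.induction_on with
  | empty =>
    rw [sum_empty, cnt_eq]
    simp
  | insert a F ha ih =>
    rw [sum_insert ha]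
    refine (cnt_or N fun n _ _ h => ?_).trans (add_le_add le_rfl ih)
    obtain ⟨A, hA, h1⟩ := h
    rw [mem_insert] at hA
    rcases hA with rfl | hA
    · exact Or.inl h1
    · exact Or.inr ⟨A, hA, h1⟩

/-- The integers whose form has a rare property are rare. -/
theorem cnt_fm {P : ℕ → Prop} (A : ℕ × ℕ) (N : ℕ) : cnt (fun n => P (fm A n)) N ≤ cnt P (3 ^ A.1 * N + A.2) := by
  classical
  rw [cnt_eq, cnt_eq]
  have h : ((Icc 1 N).filter (fun n => P (fm A n))).card ≤ ((Icc 1 (3 ^ A.1 * N + A.2)).filter P).card := by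
    apply card_le_card_of_injOn (fm A)
    · intro n hn
      rw [mem_coe, mem_filter, mem_Icc] at hn
      rw [mem_coe, mem_filter, mem_Icc]
      refine ⟨⟨?_, ?_⟩, hn.2⟩
      · unfold fm
        have : 1 ≤ 3 ^ A.1 * n := Nat.one_le_iff_ne_zero.2 (by
          have := hn.1.1
          positivity)
        omega
      · unfold fm
        have := Nat.mul_le_mul_left (3 ^ A.1) hn.1.2
        omega
    · intro n _ n' _ h
      unfold fm at h
      have h3 : 0 < 3 ^ A.1 := by positivity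
      exact Nat.eq_of_mul_eq_mul_left h3 (by omega)
  exact_mod_cast h

/-- Rare exceptions: the property `Z` has upper density at most `ε` for every `ε`, at some stage. -/
theorem fm_small {Z : ℕ → ℕ → Prop} (hZ : ∀ ε : ℝ, 0 < ε → ∃ K0 : ℕ, ∀ K ≥ K0, ∀ᶠ N : ℕ in atTop, cnt (Z K) N ≤ ε * N)
    (A : ℕ × ℕ) {ε : ℝ} (hε : 0 < ε) :
    ∃ K0 : ℕ, ∀ K ≥ K0, ∀ᶠ N : ℕ in atTop, cnt (fun n => Z K (fm A n)) N ≤ ε * N := by
  obtain ⟨K0, hK0⟩ := hZ (ε / (2 * 3 ^ A.1)) (by positivity)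
  refine ⟨K0, fun K hK => ?_⟩
  have h1 := hK0 K hK
  have h2 : Tendsto (fun N : ℕ => 3 ^ A.1 * N + A.2) atTop atTop := by
    apply tendsto_atTop_mono (f := fun N : ℕ => N) _ tendsto_id
    intro N
    have : N ≤ 3 ^ A.1 * N := Nat.le_mul_of_pos_left N (by positivity)
    omega
  filter_upwards [h2.eventually h1, eventually_ge_atTop A.2] with N h3 h4
  refine (cnt_fm A N).trans (h3.trans ?_)
  push_cast
  have h5 : ((A.2 : ℕ) : ℝ) ≤ N := by exact_mod_cast h4
  have h6 : (1 : ℝ) ≤ 3 ^ A.1 := one_le_pow₀ (by norm_num)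
  have h7 : (0 : ℝ) ≤ N := Nat.cast_nonneg N
  rw [div_mul_eq_mul_div, div_le_iff₀ (by positivity)]
  have h8 : (3 : ℝ) ^ A.1 * N + A.2 ≤ 2 * 3 ^ A.1 * N := by nlinarith
  calc ε * (3 ^ A.1 * N + A.2) ≤ ε * (2 * 3 ^ A.1 * N) := mul_le_mul_of_nonneg_left h8 hε.le
    _ = ε * N * (2 * 3 ^ A.1) := by ring

/-! ### rare events -/

/-- The threshold is passed, but not during the first `K` steps. -/
def Zz (lam : ℝ) (K m : ℕ) : Prop := Bdd m ∧ AK K lam m ∧ ∃ k, lam * m < ((Tn^[k] m : ℕ) : ℝ)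

open Pool.Agent.H499R2.ND in
theorem Zz_small {lam : ℝ} (hl : 1 ≤ lam) : ∀ ε : ℝ, 0 < ε → ∃ K0 : ℕ, ∀ K ≥ K0, ∀ᶠ N : ℕ in atTop,
    cnt (Zz lam K) N ≤ ε * N := by
  intro ε hε
  have hth := th_pos
  have hth1 := th_lt
  have h1 : Tendsto (fun K => 4 * th ^ K / (1 - th)) atTop (𝓝 0) := by
    have := ((tendsto_pow_atTop_nhds_zero_of_lt_one hth.le hth1).const_mul 4).div_const (1 - th)
    simpa using this
  obtain ⟨K0, hK0⟩ := eventually_atTop.1 (h1.eventually (gt_mem_nhds (show (0 : ℝ) < ε / 3 by positivity)))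
  refine ⟨K0, fun K hK => ?_⟩
  have hK1 := hK0 K hK
  obtain ⟨n1, hn1⟩ := exists_nK K lam
  have hlate := zd_iff.1 (late Bdd_inv (fun n h => h)) (ε / 3) (by positivity)
  filter_upwards [hlate, zd_iff.1 (zd_bdd n1) (ε / 3) (by positivity)] with N g2 g3
  have g5 := early K N
  have i2 : cnt (Zz lam K) N ≤
      (cnt (fun n => Bdd n ∧ ∃ k, n < 2 ^ k ∧ n ≤ Tn^[k] n) N
      + (cnt (fun n => ∃ k, K ≤ k ∧ 2 ^ k ≤ n ∧ n ≤ Tn^[k] n) N + cnt (fun n : ℕ => (n : ℝ) ≤ n1) N)) := by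
    refine (cnt_or N (Q := fun n => Bdd n ∧ ∃ k, n < 2 ^ k ∧ n ≤ Tn^[k] n)
      (R := fun n => (∃ k, K ≤ k ∧ 2 ^ k ≤ n ∧ n ≤ Tn^[k] n) ∨ (n : ℝ) ≤ n1) fun n hn hnN hp => ?_).trans
      (add_le_add le_rfl (cnt_or N fun n _ _ h => h))
    obtain ⟨hp2, hp1, k, hk⟩ := hp
    by_contra hcon
    push Not at hcon
    obtain ⟨hc1, hc2, hc3⟩ := hcon
    have hnR : (0 : ℝ) < n := by exact_mod_cast hn
    have hle : n ≤ Tn^[k] n := by
      have h4 : (n : ℝ) ≤ lam * n := by nlinarith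
      have h5 : (n : ℝ) < ((Tn^[k] n : ℕ) : ℝ) := by linarith
      exact_mod_cast h5.le
    have h2k : 2 ^ k ≤ n := by
      by_contra hlt
      exact absurd hle (not_le.2 (hc1 hp2 k (by omega)))
    have hkK : k < K := by
      by_contra hlt
      exact absurd hle (not_le.2 (hc2 k (by omega) h2k))
    have hk1 : 1 ≤ k := by
      by_contra h0
      have : k = 0 := by omega
      subst this
      simp only [Function.iterate_zero, id] at hk
      nlinarith
    have h4 := hp1 k hk1 hkK.le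
    have h5 := hn1 k hkK.le (od k n) ((od_le k n).trans hkK.le) h4
    have h6 := iter_real k n
    have h7 : (Pool.Agent.Helper894.Collatz.er k n : ℝ) ≤ 3 ^ K := by
      have h8 : Pool.Agent.Helper894.Collatz.er k n ≤ 3 ^ k := by
        have := er_le k n
        exact le_trans (Nat.le_add_right _ _) this
      have h9 : 3 ^ k ≤ 3 ^ K := Nat.pow_le_pow_right (by norm_num) hkK.le
      exact_mod_cast h8.trans h9
    have h8 : (lam * 2 ^ k - 3 ^ od k n) * n1 ≤ (lam * 2 ^ k - 3 ^ od k n) * n :=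
      mul_le_mul_of_nonneg_left hc3.le (by linarith)
    have h9 : (2 : ℝ) ^ k * ((Tn^[k] n : ℕ) : ℝ) ≤ 2 ^ k * (lam * n) := by
      rw [h6]
      have : (2 : ℝ) ^ k * (lam * n) = 3 ^ od k n * n + (lam * 2 ^ k - 3 ^ od k n) * n := by ring
      rw [this]; linarith
    have h10 := le_of_mul_le_mul_left h9 (by positivity)
    linarith
  have hN : (0 : ℝ) ≤ N := Nat.cast_nonneg N
  have h7 : 4 * th ^ K / (1 - th) * N ≤ ε / 3 * N := mul_le_mul_of_nonneg_right hK1.le hN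
  linarith

/-- Almost all `n` are bounded together with `3 ^ i n + r`. -/
theorem Bdd_fm (A : ℕ × ℕ) : ∀ ε : ℝ, 0 < ε → ∀ᶠ N : ℕ in atTop,
    cnt (fun n => Bdd n ∧ ¬ Bdd (fm A n)) N ≤ ε * N := by
  intro ε hε
  have h1 := q_lim (st (0, 0) (za A))
  obtain ⟨K, hK⟩ := (h1.eventually (gt_mem_nhds (show (0 : ℝ) < ε / 2 by positivity))).exists
  filter_upwards [eventually_ge_atTop (2 ^ K)] with N hN
  have h2 : cnt (fun n => Bdd n ∧ ¬ Bdd (fm A n)) N ≤ cnt (fun n => fl (bits K n) (0, 0) ≠ fl (bits K n) (za A)) N := by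
    apply cnt_mono
    intro n _ _ ⟨h3, h4⟩ h5
    apply h4
    have e0 : ((n : ℕ) : ℤ) = ev (0, 0) (n : ℤ) := by unfold ev; simp
    have h6 := (fl_bits K n (0, 0) n e0).2
    have h7 := (fl_bits K n (za A) (fm A n) (fm_ev A n)).2
    rw [← h5, ← h6] at h7
    have h8 : T^[K] (fm A n) = T^[K] n := by exact_mod_cast h7
    rw [Pool.Agent.H499R2.ND.Bdd_iter _ K, ← Tn_eq, h8, Tn_eq, ← Pool.Agent.H499R2.ND.Bdd_iter]
    exact h3
  have h3 := cnt_bits K N (fun l => fl l (0, 0) ≠ fl l (za A))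
  have h4 : av K (fun l => ind (fl l (0, 0) ≠ fl l (za A))) = q step (0, 0) K (st (0, 0) (za A)) := by
    rw [← av_ne]
    apply av_congr
    intro l _
    by_cases h : fl l (0, 0) = fl l (za A)
    · rw [h, nq_self, ind_neg (not_not.2 rfl)]
    · rw [nq_ne h, ind_pos h]
  rw [h4] at h3
  refine h2.trans (h3.trans ?_)
  have h5 : (2 : ℝ) ^ K ≤ N := by exact_mod_cast hN
  have h6 := q_nonneg step (0, 0) K (st (0, 0) (za A))
  have h7 : (0 : ℝ) ≤ N := Nat.cast_nonneg N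
  nlinarith

end Pool.Agent.K7.H66.EX
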