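import Pool.Agent.K7.H66.EX.E

/-!
Clusters of large excursions, part 6: the joint law of the excursions and the equality of the maxima.
-/

set_option autoImplicit false

namespace Pool.Agent.K7.H66.EX

open Finset Filter Topology Pool.Agent.H499R2.CO Pool.Agent.W38.CR Pool.Agent.K7.H66.CW

open Pool.Agent.H499R2.ND (cnt cnt_eq cnt_mono cnt_or Dn Tn Tn_eq Bdd AK)
open Pool.Agent.Helper894.Collatz (od T)

/-- `t (m) > c` -/
def Exc (m : ℕ) (c : ℝ) : Prop := ∃ k, c < ((Tn^[k] m : ℕ) : ℝ)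

/-- The thresholds relative to `n`. -/
noncomputable def tt (lam : ℕ × ℕ → ℝ) (B : ℕ × ℤ) : ℝ := 3 ^ B.1 * lam (B.1, B.2.toNat)

theorem tt_za (lam : ℕ × ℕ → ℝ) (A : ℕ × ℕ) : tt lam (za A) = 3 ^ A.1 * lam A := by
  unfold tt za
  simp

theorem all_image (F : Finset (ℕ × ℕ)) (lam : ℕ × ℕ → ℝ) (l : List Bool) :
    (∀ B ∈ F.image za, Up l B (tt lam B)) ↔ ∀ A ∈ F, Up l (za A) (3 ^ A.1 * lam A) := by
  constructor
  · intro h A hA
    have := h (za A) (mem_image_of_mem _ hA)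
    rwa [tt_za] at this
  · intro h B hB
    rw [mem_image] at hB
    obtain ⟨A, hA, rfl⟩ := hB
    rw [tt_za]; exact h A hA

theorem fm_pos {A : ℕ × ℕ} {n : ℕ} (hn : 1 ≤ n) : 1 ≤ fm A n := by
  unfold fm
  have : 1 ≤ 3 ^ A.1 * n := Nat.one_le_iff_ne_zero.2 (by positivity)
  omega

theorem exc_of_Up {lam : ℝ} (hl : 1 < lam) {K n : ℕ} (hn : 1 ≤ n) {A : ℕ × ℕ}
    (h : Up (bits K n) (za A) (3 ^ A.1 * lam)) : Exc (fm A n) (lam * fm A n) := by
  by_contra hcon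
  unfold Exc at hcon
  push Not at hcon
  exact (Up_AK hl K n A).1 h (Pool.Agent.H499R2.ND.AK_of_bound hl.le (fm_pos hn) hcon K)

/-- If the form exceeds the threshold and this is not a rare event, it does so early. -/
theorem Up_of_exc {lam : ℝ} (hl : 1 < lam) {K n : ℕ} {A : ℕ × ℕ} (h : Exc (fm A n) (lam * fm A n))
    (h1 : ¬ Zz lam K (fm A n)) (h2 : Bdd (fm A n)) : Up (bits K n) (za A) (3 ^ A.1 * lam) := by
  rw [Up_AK hl]
  intro h3
  exact h1 ⟨h2, h3, h⟩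

/-- All the rare events for the family. -/
def Rare (F : Finset (ℕ × ℕ)) (lam : ℕ × ℕ → ℝ) (K n : ℕ) : Prop :=
  ∃ A ∈ F, Zz (lam A) K (fm A n) ∨ (Bdd n ∧ ¬ Bdd (fm A n))

theorem Rare_small (F : Finset (ℕ × ℕ)) {lam : ℕ × ℕ → ℝ} (hl : ∀ A ∈ F, 1 ≤ lam A) {ε : ℝ} (hε : 0 < ε) :
    ∃ K0 : ℕ, ∀ K ≥ K0, ∀ᶠ N : ℕ in atTop, cnt (Rare F lam K) N ≤ ε * N := by
  classical
  set η : ℝ := ε / (2 * (F.card + 1)) with hη
  have hη0 : 0 < η := by positivity
  have h1 : ∀ A ∈ F, ∃ K0 : ℕ, ∀ K ≥ K0, ∀ᶠ N : ℕ in atTop, cnt (fun n => Zz (lam A) K (fm A n)) N ≤ η * N :=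
    fun A hA => fm_small (Zz_small (hl A hA)) A hη0
  choose! g hg using h1
  refine ⟨F.sup g, fun K hK => ?_⟩
  have h2 : ∀ᶠ N : ℕ in atTop, ∀ A ∈ F, cnt (fun n => Zz (lam A) K (fm A n)) N ≤ η * N := by
    rw [Filter.eventually_all_finset]
    intro A hA
    exact hg A hA K ((Finset.le_sup hA).trans hK)
  have h3 : ∀ᶠ N : ℕ in atTop, ∀ A ∈ F, cnt (fun n => Bdd n ∧ ¬ Bdd (fm A n)) N ≤ η * N := by
    rw [Filter.eventually_all_finset]
    intro A _
    exact Bdd_fm A η hη0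
  filter_upwards [h2, h3] with N h4 h5
  unfold Rare
  refine (cnt_ex F (fun A n => Zz (lam A) K (fm A n) ∨ (Bdd n ∧ ¬ Bdd (fm A n))) N).trans ?_
  have h6 : ∀ A ∈ F, cnt (fun n => Zz (lam A) K (fm A n) ∨ (Bdd n ∧ ¬ Bdd (fm A n))) N ≤ 2 * η * N := by
    intro A hA
    have := cnt_or (P := fun n => Zz (lam A) K (fm A n) ∨ (Bdd n ∧ ¬ Bdd (fm A n)))
      (Q := fun n => Zz (lam A) K (fm A n)) (R := fun n => Bdd n ∧ ¬ Bdd (fm A n)) N (fun n _ _ h => h)
    have := h4 A hA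
    have := h5 A hA
    linarith
  refine (sum_le_sum h6).trans ?_
  rw [sum_const, nsmul_eq_mul]
  have e : (F.card : ℝ) * (2 * η * N) ≤ (F.card + 1) * (2 * η * N) := by
    have : 0 ≤ 2 * η * (N : ℝ) := by positivity
    nlinarith
  refine e.trans (le_of_eq ?_)
  rw [hη]
  field_simp

/-- THE JOINT LAW OF THE EXCURSIONS OF A FAMILY OF FORMS, inside an invariant set. -/
theorem joint_density {P : ℕ → Prop} {δ : ℝ} (hP : ∀ n, P n ↔ P (Tn n)) (hPB : ∀ n, P n → Bdd n) (hδ : Dn P δ)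
    (F : Finset (ℕ × ℕ)) {lam : ℕ × ℕ → ℝ} (hl : ∀ A ∈ F, 1 < lam A) :
    Dn (fun n => P n ∧ ∀ A ∈ F, Exc (fm A n) (lam A * fm A n)) (Jl (F.image za) (tt lam) * δ) := by
  classical
  set G := F.image za with hG
  set J := Jl G (tt lam) with hJ
  set E : ℕ → Prop := fun n => P n ∧ ∀ A ∈ F, Exc (fm A n) (lam A * fm A n) with hE
  unfold Dn
  rw [Metric.tendsto_nhds]
  intro ε hε
  obtain ⟨K0, hK0⟩ := Rare_small F (lam := lam) (fun A hA => (hl A hA).le) (ε := ε / 4) (by positivity)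
  have h1 : Tendsto (fun K => Jn K G (tt lam) * δ) atTop (𝓝 (J * δ)) := (Jn_tendsto G (tt lam)).mul_const δ
  obtain ⟨K, hK1, hK2⟩ := ((Metric.tendsto_nhds.1 h1 (ε / 4) (by positivity)).and (eventually_ge_atTop K0)).exists
  have h2 := dn_bits hP hδ K (fun l => ∀ B ∈ G, Up l B (tt lam B))
  have h3 : av K (fun l => ind (∀ B ∈ G, Up l B (tt lam B))) = Jn K G (tt lam) := rfl
  rw [h3] at h2
  unfold Dn at h2
  filter_upwards [hK0 K hK2, Metric.tendsto_nhds.1 h2 (ε / 4) (by positivity), eventually_gt_atTop 0] with N g1 g2 g3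
  have hN : (0 : ℝ) < N := by exact_mod_cast g3
  have i1 : cnt (fun n => (∀ B ∈ G, Up (bits K n) B (tt lam B)) ∧ P n) N ≤ cnt E N := by
    apply cnt_mono
    intro n hn _ ⟨h4, h5⟩
    refine ⟨h5, fun A hA => exc_of_Up (hl A hA) hn ((all_image F lam (bits K n)).1 h4 A hA)⟩
  have i2 : cnt E N ≤ cnt (fun n => (∀ B ∈ G, Up (bits K n) B (tt lam B)) ∧ P n) N + cnt (Rare F lam K) N := by
    apply cnt_or
    intro n hn _ ⟨h4, h5⟩
    by_cases h6 : Rare F lam K n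
    · exact Or.inr h6
    · left
      refine ⟨(all_image F lam (bits K n)).2 fun A hA => ?_, h4⟩
      unfold Rare at h6
      push Not at h6
      obtain ⟨h7, h8⟩ := h6 A hA
      exact Up_of_exc (hl A hA) (h5 A hA) h7 (h8 (hPB n h4))
  rw [Real.dist_eq, abs_lt] at g2 hK1 ⊢
  have e1 : cnt E N / N ≤ cnt (fun n => (∀ B ∈ G, Up (bits K n) B (tt lam B)) ∧ P n) N / N + ε / 4 := by
    rw [div_le_iff₀ hN, add_mul, div_mul_cancel₀ _ hN.ne']
    linarith
  have e2 : cnt (fun n => (∀ B ∈ G, Up (bits K n) B (tt lam B)) ∧ P n) N / N ≤ cnt E N / N :=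
    div_le_div_of_nonneg_right i1 hN.le
  constructor <;> linarith [g2.1, g2.2, hK1.1, hK1.2]

/-! ### the equality of the maxima -/

/-- the maximum excursion -/
noncomputable def tx (n : ℕ) : ℕ∞ := ⨆ k : ℕ, ((Tn^[k] n : ℕ) : ℕ∞)

theorem Tn_le {m : ℕ} (hm : 1 ≤ m) : Tn m ≤ 2 * m := by
  rw [← Tn_eq]
  unfold T
  split_ifs <;> omega

theorem Tn_pos {m : ℕ} (hm : 1 ≤ m) : 1 ≤ Tn m := by
  rw [← Tn_eq]
  unfold T
  split_ifs <;> omega

theorem iter_le (k : ℕ) : ∀ {m : ℕ}, 1 ≤ m → 1 ≤ Tn^[k] m ∧ Tn^[k] m ≤ 2 ^ k * m := by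
  induction k with
  | zero => intro m hm; simpa using hm
  | succ k ih =>
    intro m hm
    rw [Function.iterate_succ_apply']
    obtain ⟨h1, h2⟩ := ih hm
    refine ⟨Tn_pos h1, (Tn_le h1).trans ?_⟩
    rw [pow_succ]; nlinarith

/-- If the maximum is large it is reached late. -/
theorem tx_late {m K : ℕ} (hm : 1 ≤ m) {lam : ℝ} (hl : (2 : ℝ) ^ K ≤ lam) (h : Exc m (lam * m)) :
    tx m = tx (Tn^[K] m) := by
  obtain ⟨k, hk⟩ := h
  have hmR : (0 : ℝ) < m := by exact_mod_cast hm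
  have hsmall : ∀ j ≤ K, ((Tn^[j] m : ℕ) : ℝ) ≤ lam * m := by
    intro j hj
    have h1 : ((Tn^[j] m : ℕ) : ℝ) ≤ 2 ^ j * m := by exact_mod_cast (iter_le j hm).2
    have h2 : (2 : ℝ) ^ j ≤ 2 ^ K := pow_le_pow_right₀ (by norm_num) hj
    calc ((Tn^[j] m : ℕ) : ℝ) ≤ 2 ^ j * m := h1
      _ ≤ lam * m := mul_le_mul_of_nonneg_right (h2.trans hl) hmR.le
  have hkK : K < k := by
    by_contra hcon
    have := hsmall k (by omega)
    linarith
  obtain ⟨i, rfl⟩ : ∃ i, k = i + K := ⟨k - K, by omega⟩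
  have h3 : ((Tn^[i + K] m : ℕ) : ℕ∞) ≤ tx (Tn^[K] m) := by
    rw [Function.iterate_add_apply]
    exact le_iSup (fun i => ((Tn^[i] (Tn^[K] m) : ℕ) : ℕ∞)) i
  unfold tx
  apply le_antisymm
  · apply iSup_le
    intro j
    rcases le_or_gt j K with h4 | h4
    · refine le_trans ?_ h3
      have h5 : ((Tn^[j] m : ℕ) : ℝ) < ((Tn^[i + K] m : ℕ) : ℝ) := lt_of_le_of_lt (hsmall j h4) hk
      exact_mod_cast h5.le
    · obtain ⟨i', rfl⟩ : ∃ i', j = i' + K := ⟨j - K, by omega⟩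
      rw [Function.iterate_add_apply]
      exact le_iSup (fun i => ((Tn^[i] (Tn^[K] m) : ℕ) : ℕ∞)) i'
  · apply iSup_le
    intro j
    rw [← Function.iterate_add_apply]
    exact le_iSup (fun j => ((Tn^[j] m : ℕ) : ℕ∞)) (j + K)

/-- Coalescence of two forms by time `K` makes the later trajectories equal. -/
theorem iter_eq_of_fl {K n : ℕ} {A B : ℕ × ℕ} (h : fl (bits K n) (za A) = fl (bits K n) (za B)) :
    Tn^[K] (fm A n) = Tn^[K] (fm B n) := by
  have h6 := (fl_bits K n (za A) (fm A n) (fm_ev A n)).2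
  have h7 := (fl_bits K n (za B) (fm B n) (fm_ev B n)).2
  rw [← h, ← h6] at h7
  rw [← Tn_eq]
  exact_mod_cast h7.symm

/-- The pairs which have not coalesced by time `K` are rarely both large. -/
theorem av_bad (K m : ℕ) (A B : ℕ × ℤ) {lam : ℝ} (hl : 0 < lam) (hK : 3 ^ K < lam) :
    av (K + m) (fun l => ind (fl (l.take K) A ≠ fl (l.take K) B ∧ Up l A (3 ^ A.1 * lam) ∧ Up l B (3 ^ B.1 * lam))) ≤
      RR K (st A B) / lam := by
  rw [av_append]
  have h1 : √ ((3 : ℝ) ^ A.1 * lam * (3 ^ B.1 * lam)) = lam * √ (3 ^ A.1 * 3 ^ B.1) := by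
    have : (3 : ℝ) ^ A.1 * lam * (3 ^ B.1 * lam) = lam ^ 2 * (3 ^ A.1 * 3 ^ B.1) := by ring
    rw [this, Real.sqrt_mul (by positivity), Real.sqrt_sq hl.le]
  have hs : (0 : ℝ) < √ (3 ^ A.1 * 3 ^ B.1) := Real.sqrt_pos.2 (by positivity)
  have e : RR K (st A B) / lam = av K (fun l => (1 / (2 ^ K * (lam * √ (3 ^ A.1 * 3 ^ B.1)))) *
      (nq (fl l A) (fl l B) * √ (3 ^ (fl l A).1 * 3 ^ (fl l B).1))) := by
    rw [av_smul, av_geo]
    field_simp
  rw [e]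
  apply av_mono
  intro l hlen
  by_cases h : fl l A = fl l B
  · rw [h, nq_self, zero_mul, mul_zero]
    apply le_of_eq
    rw [← av_const m 0]
    apply av_congr
    intro l' _
    apply ind_neg
    rw [List.take_append_of_le_length (by omega), ← hlen, List.take_length]
    exact fun h' => h'.1 h
  · rw [nq_ne h, one_mul]
    have hA : (0 : ℝ) < 2 ^ K * (3 ^ A.1 * lam) := by positivity
    have hB : (0 : ℝ) < 2 ^ K * (3 ^ B.1 * lam) := by positivity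
    have h4 := av_two_le m (fl l A) (fl l B) hA hB
    have h5 : √ (2 ^ K * (3 ^ A.1 * lam) * (2 ^ K * (3 ^ B.1 * lam))) = 2 ^ K * (lam * √ (3 ^ A.1 * 3 ^ B.1)) := by
      have : (2 : ℝ) ^ K * (3 ^ A.1 * lam) * (2 ^ K * (3 ^ B.1 * lam)) =
          (2 ^ K) ^ 2 * (3 ^ A.1 * lam * (3 ^ B.1 * lam)) := by ring
      rw [this, Real.sqrt_mul (by positivity), Real.sqrt_sq (by positivity), h1]
    rw [h5] at h4
    rw [one_div, inv_mul_eq_div]
    refine le_trans (av_mono fun l' _ => ind_mono fun h6 => ?_) h4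
    obtain ⟨_, h7, h8⟩ := h6
    rw [Up_append, hlen] at h7 h8
    have nA : ¬ Up l A (3 ^ A.1 * lam) := by
      apply not_Up
      rw [hlen, pow_add]
      exact mul_lt_mul_of_pos_left hK (by positivity)
    have nB : ¬ Up l B (3 ^ B.1 * lam) := by
      apply not_Up
      rw [hlen, pow_add]
      exact mul_lt_mul_of_pos_left hK (by positivity)
    exact ⟨h7.resolve_left nA, h8.resolve_left nB⟩

theorem take_bits (K m : ℕ) : ∀ n : ℕ, (bits (K + m) n).take K = bits K n := by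
  induction K with
  | zero => intro n; simp [bits]
  | succ K ih =>
    intro n
    rw [show K + 1 + m = (K + m) + 1 by ring]
    simp only [bits, List.take_succ_cons]
    rw [ih]

/-- THE MAXIMA ARE EQUAL: if all the forms of the family have large excursions, these are the same, up to rare
exceptions. -/
theorem maxima {P : ℕ → Prop} (hPB : ∀ n, P n → Bdd n) (F : Finset (ℕ × ℕ)) {ε : ℝ} (hε : 0 < ε) :
    ∃ L : ℝ, 1 ≤ L ∧ ∀ lam ≥ L, ∀ᶠ N : ℕ in atTop,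
      cnt (fun n => P n ∧ (∀ A ∈ F, Exc (fm A n) (lam * fm A n)) ∧ ¬ ∀ A ∈ F, ∀ B ∈ F, tx (fm A n) = tx (fm B n)) N ≤
        ε * N / lam := by
  classical
  have h1 : Tendsto (fun K => ∑ A ∈ F, ∑ B ∈ F, RR K (st (za A) (za B))) atTop
      (𝓝 (∑ _A ∈ F, ∑ _B ∈ F, (0 : ℝ))) :=
    tendsto_finsetSum _ fun A _ => tendsto_finsetSum _ fun B _ => RR_lim _
  rw [sum_eq_zero (fun _ _ => sum_const_zero)] at h1
  obtain ⟨K, hK⟩ := (h1.eventually (gt_mem_nhds (show (0 : ℝ) < ε / 4 by positivity))).exists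
  refine ⟨2 * 3 ^ K, by have := one_le_pow₀ (show (1 : ℝ) ≤ 3 by norm_num) (n := K); linarith, fun lam hlam => ?_⟩
  have h3K : (1 : ℝ) ≤ 3 ^ K := one_le_pow₀ (by norm_num)
  have hl3 : (3 : ℝ) ^ K < lam := by linarith
  have hl1 : 1 < lam := by linarith
  have hl0 : 0 < lam := by linarith
  have hl2 : (2 : ℝ) ^ K ≤ lam := (pow_le_pow_left₀ (by norm_num) (by norm_num) K).trans hl3.le
  obtain ⟨K0, hK0⟩ := Rare_small F (lam := fun _ => lam) (fun _ _ => hl1.le) (ε := ε / (4 * lam)) (by positivity)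
  obtain ⟨m, hm⟩ : ∃ m, K0 ≤ K + m := ⟨K0, by omega⟩
  filter_upwards [hK0 (K + m) hm, eventually_ge_atTop (2 ^ (K + m))] with N g1 g2
  set J := K + m with hJ
  have hN : (0 : ℝ) ≤ N := Nat.cast_nonneg N
  have g3 : (2 : ℝ) ^ J ≤ N := by exact_mod_cast g2
  set bad : ℕ × ℕ → ℕ × ℕ → List Bool → Prop := fun A B l =>
    fl (l.take K) (za A) ≠ fl (l.take K) (za B) ∧ Up l (za A) (3 ^ (za A).1 * lam) ∧ Up l (za B) (3 ^ (za B).1 * lam)
    with hbad
  have i1 : cnt (fun n => P n ∧ (∀ A ∈ F, Exc (fm A n) (lam * fm A n)) ∧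
      ¬ ∀ A ∈ F, ∀ B ∈ F, tx (fm A n) = tx (fm B n)) N ≤
      cnt (fun n => ∃ A ∈ F, ∃ B ∈ F, bad A B (bits J n)) N + cnt (Rare F (fun _ => lam) J) N := by
    apply cnt_or
    intro n hn _ ⟨h4, h5, h6⟩
    by_cases h7 : Rare F (fun _ => lam) J n
    · exact Or.inr h7
    · left
      unfold Rare at h7
      push Not at h6 h7
      obtain ⟨A, hA, B, hB, h8⟩ := h6
      refine ⟨A, hA, B, hB, ?_, ?_, ?_⟩
      · rw [hJ, take_bits]
        intro h9
        apply h8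
        rw [tx_late (fm_pos hn) hl2 (h5 A hA), tx_late (fm_pos hn) hl2 (h5 B hB), iter_eq_of_fl h9]
      · exact Up_of_exc hl1 (h5 A hA) (h7 A hA).1 ((h7 A hA).2 (hPB n h4))
      · exact Up_of_exc hl1 (h5 B hB) (h7 B hB).1 ((h7 B hB).2 (hPB n h4))
  have i2 : cnt (fun n => ∃ A ∈ F, ∃ B ∈ F, bad A B (bits J n)) N ≤
      ∑ A ∈ F, ∑ B ∈ F, (N + 2 ^ J) * (RR K (st (za A) (za B)) / lam) := by
    refine (cnt_ex F (fun A n => ∃ B ∈ F, bad A B (bits J n)) N).trans (sum_le_sum fun A _ => ?_)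
    refine (cnt_ex F (fun B n => bad A B (bits J n)) N).trans (sum_le_sum fun B _ => ?_)
    refine (cnt_bits J N (bad A B)).trans ?_
    apply mul_le_mul_of_nonneg_left _ (by positivity)
    exact av_bad K m (za A) (za B) hl0 hl3
  have i3 : ∑ A ∈ F, ∑ B ∈ F, ((N : ℝ) + 2 ^ J) * (RR K (st (za A) (za B)) / lam) =
      (N + 2 ^ J) / lam * ∑ A ∈ F, ∑ B ∈ F, RR K (st (za A) (za B)) := by
    rw [mul_sum]
    apply sum_congr rfl
    intro A _
    rw [mul_sum]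
    apply sum_congr rfl
    intro B _
    ring
  rw [i3] at i2
  have i4 : ((N : ℝ) + 2 ^ J) / lam * ∑ A ∈ F, ∑ B ∈ F, RR K (st (za A) (za B)) ≤ (2 * N) / lam * (ε / 4) := by
    apply mul_le_mul _ hK.le (sum_nonneg fun A _ => sum_nonneg fun B _ => RR_nonneg _ _) (by positivity)
    exact div_le_div_of_nonneg_right (by linarith) hl0.le
  have e1 : (2 * (N : ℝ)) / lam * (ε / 4) = (ε * N / lam) / 2 := by ring
  have e2 : ε / (4 * lam) * (N : ℝ) = (ε * N / lam) / 4 := by field_simp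
  have e3 : 0 ≤ ε * N / lam := by positivity
  rw [e1] at i4
  rw [e2] at g1
  linarith

end Pool.Agent.K7.H66.EX
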