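import Pool.Agent.K7.H66.EX.F

/-!
Clusters of large excursions, part 7: the law of the maximum over a family of forms.
-/

set_option autoImplicit false

namespace Pool.Agent.K7.H66.EX

open Finset Filter Topology Pool.Agent.H499R2.CO Pool.Agent.W38.CR Pool.Agent.K7.H66.CW

open Pool.Agent.W36.SL (s p C)

/-- The classes of the family after the word. -/
def im (F : Finset (ℕ × ℤ)) (l : List Bool) : Finset (ℕ × ℤ) := F.image (fl l)

/-- The proportion of the words of length `K` along which some form of the family reaches `θ`. -/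
noncomputable def Un (K : ℕ) (F : Finset (ℕ × ℤ)) (θ : ℝ) : ℝ :=
  av K (fun l => ind (∃ A ∈ F, Up l A θ))

theorem Un_nonneg (K : ℕ) (F : Finset (ℕ × ℤ)) (θ : ℝ) : 0 ≤ Un K F θ := av_nonneg fun _ _ => ind_nonneg _

theorem Un_le_one (K : ℕ) (F : Finset (ℕ × ℤ)) (θ : ℝ) : Un K F θ ≤ 1 := by
  rw [← av_const K 1]; exact av_mono fun _ _ => ind_le_one _

theorem Un_mono (F : Finset (ℕ × ℤ)) (θ : ℝ) : Monotone (fun K => Un K F θ) := by
  apply monotone_nat_of_le_succ
  intro K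
  unfold Un
  rw [av_append K 1]
  apply av_mono
  intro l _
  rw [← av_const 1 (ind (∃ A ∈ F, Up l A θ))]
  apply av_mono
  intro l' _
  apply ind_mono
  rintro ⟨A, hA, h⟩
  refine ⟨A, hA, ?_⟩
  rw [Up_append]
  exact Or.inl h

/-- The limit. -/
noncomputable def Ul (F : Finset (ℕ × ℤ)) (θ : ℝ) : ℝ := ⨆ K, Un K F θ

theorem Un_tendsto (F : Finset (ℕ × ℤ)) (θ : ℝ) : Tendsto (fun K => Un K F θ) atTop (𝓝 (Ul F θ)) :=
  tendsto_atTop_ciSup (Un_mono F θ) ⟨1, by rintro _ ⟨K, rfl⟩; exact Un_le_one K F θ⟩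

theorem Un_split {F : Finset (ℕ × ℤ)} {θ : ℝ} (K m : ℕ) (hK : ∀ A ∈ F, (3 : ℝ) ^ (A.1 + K) < θ) :
    Un (K + m) F θ = av K (fun l => av m (fun l' => ind (∃ B ∈ im F l, Up l' B (2 ^ K * θ)))) := by
  unfold Un
  rw [av_append]
  apply av_congr
  intro l hl
  apply av_congr
  intro l' _
  congr 1
  rw [eq_iff_iff]
  constructor
  · rintro ⟨A, hA, h1⟩
    rw [Up_append, hl] at h1
    rcases h1 with h1 | h1
    · exact absurd h1 (not_Up l A (by rw [hl]; exact hK A hA))
    · exact ⟨fl l A, mem_image_of_mem _ hA, h1⟩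
  · rintro ⟨B, hB, h1⟩
    unfold im at hB
    rw [mem_image] at hB
    obtain ⟨A, hA, rfl⟩ := hB
    refine ⟨A, hA, ?_⟩
    rw [Up_append, hl]
    exact Or.inr h1

/-- The main part. -/
noncomputable def um (K m : ℕ) (F : Finset (ℕ × ℤ)) (θ : ℝ) : ℝ :=
  av K (fun l => ∑ B ∈ im F l, (1 - s m (2 ^ K * θ / 3 ^ B.1)))

/-- The error. -/
noncomputable def ue (K : ℕ) (F : Finset (ℕ × ℤ)) : ℝ :=
  ∑ A ∈ F, ∑ B ∈ F, √ (3 ^ A.1 * 3 ^ B.1) * RR K (st A B)

theorem Un_upper {F : Finset (ℕ × ℤ)} {θ : ℝ} (K m : ℕ) (hK : ∀ A ∈ F, (3 : ℝ) ^ (A.1 + K) < θ) :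
    Un (K + m) F θ ≤ um K m F θ := by
  rw [Un_split K m hK]
  unfold um
  apply av_mono
  intro l _
  have e : ∑ B ∈ im F l, (1 - s m (2 ^ K * θ / 3 ^ B.1)) =
      av m (fun l' => ∑ B ∈ im F l, ind (Up l' B (2 ^ K * θ))) := by
    rw [av_sum]
    apply sum_congr rfl
    intro B _
    rw [av_Up]
  rw [e]
  apply av_mono
  intro l' _
  by_cases h : ∃ B ∈ im F l, Up l' B (2 ^ K * θ)
  · rw [ind_pos h]
    obtain ⟨B, hB, h1⟩ := h
    have := single_le_sum (f := fun B => ind (Up l' B (2 ^ K * θ))) (fun B _ => ind_nonneg _) hB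
    simp only [ind_pos h1] at this
    exact this
  · rw [ind_neg h]
    exact sum_nonneg fun B _ => ind_nonneg _

/-- A Bonferroni inequality. -/
theorem bonf {ι : Type*} [DecidableEq ι] (S : Finset ι) (Q : ι → Prop) :
    ∑ B ∈ S, ind (Q B) - ∑ B ∈ S, ∑ D ∈ S, (if B = D then 0 else ind (Q B ∧ Q D)) ≤ ind (∃ B ∈ S, Q B) := by
  classical
  have h1 : ∑ B ∈ S, ind (Q B) = ((S.filter Q).card : ℝ) := by
    rw [card_filter]
    push_cast
    apply sum_congr rfl
    intro B _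
    by_cases h : Q B
    · rw [if_pos h, ind_pos h]
    · rw [if_neg h, ind_neg h]
  have h2 : ∑ B ∈ S, ∑ D ∈ S, (if B = D then (0 : ℝ) else ind (Q B ∧ Q D)) =
      ((S.filter Q).card : ℝ) * ((S.filter Q).card : ℝ) - ((S.filter Q).card : ℝ) := by
    have h3 : ∀ B ∈ S, ∑ D ∈ S, (if B = D then (0 : ℝ) else ind (Q B ∧ Q D)) =
        ind (Q B) * (((S.filter Q).card : ℝ) - 1) := by
      intro B hB
      have h4 : ∀ D ∈ S, (if B = D then (0 : ℝ) else ind (Q B ∧ Q D)) =
          ind (Q B) * ind (Q D) - (if B = D then ind (Q B) else 0) := by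
        intro D _
        by_cases h5 : B = D
        · rw [if_pos h5, if_pos h5, ← h5]
          by_cases h6 : Q B
          · rw [ind_pos h6]; norm_num
          · rw [ind_neg h6]; norm_num
        · rw [if_neg h5, if_neg h5, sub_zero]
          by_cases h6 : Q B
          · by_cases h7 : Q D
            · rw [ind_pos ⟨h6, h7⟩, ind_pos h6, ind_pos h7]; norm_num
            · rw [ind_neg (fun h => h7 h.2), ind_neg h7]; norm_num
          · rw [ind_neg (fun h => h6 h.1), ind_neg h6]; norm_num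
      rw [sum_congr rfl h4, sum_sub_distrib, ← mul_sum, h1, sum_ite_eq, if_pos hB]
      ring
    rw [sum_congr rfl h3, ← sum_mul, h1]
    ring
  rw [h1, h2]
  by_cases h : ∃ B ∈ S, Q B
  · rw [ind_pos h]
    have h5 : 0 ≤ (((S.filter Q).card : ℝ) - 1) ^ 2 := sq_nonneg _
    nlinarith
  · rw [ind_neg h]
    have h5 : S.filter Q = ∅ := by
      rw [filter_eq_empty_iff]
      intro B hB hQ
      exact h ⟨B, hB, hQ⟩
    rw [h5]
    simp

theorem Un_lower {F : Finset (ℕ × ℤ)} {θ : ℝ} (K m : ℕ) (hθ : 0 < θ) (hK : ∀ A ∈ F, (3 : ℝ) ^ (A.1 + K) < θ) :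
    um K m F θ - ue K F / θ ≤ Un (K + m) F θ := by
  classical
  rw [Un_split K m hK]
  have e : ue K F / θ = av K (fun l => ∑ A ∈ F, ∑ B ∈ F, (1 / (2 ^ K * θ)) *
      (nq (fl l A) (fl l B) * √ (3 ^ (fl l A).1 * 3 ^ (fl l B).1))) := by
    rw [av_sum]
    unfold ue
    rw [sum_div]
    apply sum_congr rfl
    intro A _
    rw [av_sum, sum_div]
    apply sum_congr rfl
    intro B _
    rw [av_smul, av_geo]
    field_simp
  have e2 : um K m F θ - ue K F / θ = av K (fun l => ∑ B ∈ im F l, (1 - s m (2 ^ K * θ / 3 ^ B.1)) +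
      (-1) * ∑ A ∈ F, ∑ B ∈ F, (1 / (2 ^ K * θ)) * (nq (fl l A) (fl l B) * √ (3 ^ (fl l A).1 * 3 ^ (fl l B).1))) := by
    rw [av_add, av_smul, ← e]
    unfold um
    ring
  rw [e2]
  apply av_mono
  intro l _
  have e3 : ∑ B ∈ im F l, (1 - s m (2 ^ K * θ / 3 ^ B.1)) =
      av m (fun l' => ∑ B ∈ im F l, ind (Up l' B (2 ^ K * θ))) := by
    rw [av_sum]
    apply sum_congr rfl
    intro B _
    rw [av_Up]
  have h1 : av m (fun l' => ∑ B ∈ im F l, ind (Up l' B (2 ^ K * θ)) + (-1) *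
      ∑ B ∈ im F l, ∑ D ∈ im F l, (if B = D then 0 else ind (Up l' B (2 ^ K * θ) ∧ Up l' D (2 ^ K * θ)))) ≤
      av m (fun l' => ind (∃ B ∈ im F l, Up l' B (2 ^ K * θ))) := by
    apply av_mono
    intro l' _
    have := bonf (im F l) (fun B => Up l' B (2 ^ K * θ))
    linarith
  rw [av_add, av_smul, ← e3, av_sum] at h1
  have hK0 : (0 : ℝ) < 2 ^ K * θ := by positivity
  set g : ℕ × ℤ → ℕ × ℤ → ℝ := fun B D => (1 / (2 ^ K * θ)) * (nq B D * √ (3 ^ B.1 * 3 ^ D.1)) with hg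
  have hg0 : ∀ B D, 0 ≤ g B D := fun B D => mul_nonneg (by positivity) (mul_nonneg (nq_nonneg _ _) (Real.sqrt_nonneg _))
  have h2 : ∑ B ∈ im F l, av m (fun l' => ∑ D ∈ im F l,
      (if B = D then 0 else ind (Up l' B (2 ^ K * θ) ∧ Up l' D (2 ^ K * θ)))) ≤ ∑ B ∈ im F l, ∑ D ∈ im F l, g B D := by
    apply sum_le_sum
    intro B _
    rw [av_sum]
    apply sum_le_sum
    intro D _
    by_cases h : B = D
    · simp only [if_pos h, av_const]
      exact hg0 B D
    · simp only [if_neg h]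
      have h4 := av_two_le m B D hK0 hK0
      have h5 : √ (2 ^ K * θ * (2 ^ K * θ)) = 2 ^ K * θ := by
        rw [← sq]; exact Real.sqrt_sq hK0.le
      rw [h5] at h4
      rw [hg]
      simp only
      rw [nq_ne h, one_mul, one_div, inv_mul_eq_div]
      exact h4
  have h3 : ∀ (w : ℕ × ℤ → ℝ), (∀ B, 0 ≤ w B) → ∑ B ∈ im F l, w B ≤ ∑ A ∈ F, w (fl l A) := by
    intro w hw
    have h6 := Finset.sum_comp (s := F) w (fl l)
    rw [h6]
    unfold im
    apply sum_le_sum
    intro B hB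
    rw [mem_image] at hB
    obtain ⟨A, hA, hAB⟩ := hB
    have h7 : 1 ≤ (F.filter (fun a => fl l a = B)).card := by
      rw [Nat.one_le_iff_ne_zero]
      intro h8
      rw [card_eq_zero] at h8
      have : A ∈ F.filter (fun a => fl l a = B) := by rw [mem_filter]; exact ⟨hA, hAB⟩
      rw [h8] at this
      simp at this
    have h8 : (1 : ℝ) ≤ ((F.filter (fun a => fl l a = B)).card : ℝ) := by exact_mod_cast h7
    rw [nsmul_eq_mul]
    have := hw B
    nlinarith
  have h4 : ∑ B ∈ im F l, ∑ D ∈ im F l, g B D ≤ ∑ A ∈ F, ∑ B ∈ F, g (fl l A) (fl l B) := by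
    refine (h3 (fun B => ∑ D ∈ im F l, g B D) (fun B => sum_nonneg fun D _ => hg0 B D)).trans ?_
    apply sum_le_sum
    intro A _
    exact h3 (fun D => g (fl l A) D) (fun D => hg0 _ D)
  have h5 : ∑ A ∈ F, ∑ B ∈ F, g (fl l A) (fl l B) = ∑ A ∈ F, ∑ B ∈ F, (1 / (2 ^ K * θ)) *
      (nq (fl l A) (fl l B) * √ (3 ^ (fl l A).1 * 3 ^ (fl l B).1)) := rfl
  rw [h5] at h4
  linarith

/-- The mean of the sum of the values of the classes. -/
noncomputable def ek (K : ℕ) (F : Finset (ℕ × ℤ)) : ℝ := av K (fun l => ∑ B ∈ im F l, (3 : ℝ) ^ B.1) / 2 ^ K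

theorem ek_nonneg (K : ℕ) (F : Finset (ℕ × ℤ)) : 0 ≤ ek K F :=
  div_nonneg (av_nonneg fun l _ => sum_nonneg fun B _ => by positivity) (by positivity)

/-- The main part in the limit. -/
noncomputable def ul (K : ℕ) (F : Finset (ℕ × ℤ)) (θ : ℝ) : ℝ :=
  av K (fun l => ∑ B ∈ im F l, p (2 ^ K * θ / 3 ^ B.1))

theorem Ul_bounds {F : Finset (ℕ × ℤ)} {θ : ℝ} (K : ℕ) (hθ : 0 < θ) (hK : ∀ A ∈ F, (3 : ℝ) ^ (A.1 + K) < θ) :
    ul K F θ - ue K F / θ ≤ Ul F θ ∧ Ul F θ ≤ ul K F θ := by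
  have h1 : Tendsto (fun m => Un (K + m) F θ) atTop (𝓝 (Ul F θ)) := by
    have := (Un_tendsto F θ).comp (tendsto_add_atTop_nat K)
    refine this.congr fun m => ?_
    simp only [Function.comp]
    rw [add_comm]
  have h2 : Tendsto (fun m => um K m F θ) atTop (𝓝 (ul K F θ)) := by
    unfold um ul
    apply av_tendsto
    intro l
    exact tendsto_finsetSum _ fun B _ => (Pool.Agent.W36.SL.s_tendsto _).const_sub 1
  exact ⟨le_of_tendsto_of_tendsto' (h2.sub_const _) h1 fun m => Un_lower K m hθ hK,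
    le_of_tendsto_of_tendsto' h1 h2 fun m => Un_upper K m hK⟩

theorem p_scale {c : ℝ} (hc : 0 < c) : Tendsto (fun t : ℝ => t * p (c * t)) atTop (𝓝 (C / c)) := by
  have h3 : Tendsto (fun t : ℝ => c * t) atTop atTop := tendsto_id.const_mul_atTop hc
  have h4 := (Pool.Agent.W36.SL.p_tendsto.comp h3).div_const c
  refine h4.congr fun t => ?_
  simp only [Function.comp]
  field_simp

theorem ul_scale (K : ℕ) (F : Finset (ℕ × ℤ)) :
    Tendsto (fun t : ℝ => t * ul K F t) atTop (𝓝 (C * ek K F)) := by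
  have h1 : ∀ t : ℝ, t * ul K F t = av K (fun l => ∑ B ∈ im F l, t * p (2 ^ K / 3 ^ B.1 * t)) := by
    intro t
    unfold ul
    rw [← av_smul]
    apply av_congr
    intro l _
    rw [mul_sum]
    apply sum_congr rfl
    intro B _
    congr 2
    ring
  simp only [h1]
  have h2 : C * ek K F = av K (fun l => ∑ B ∈ im F l, C / (2 ^ K / 3 ^ B.1)) := by
    unfold ek
    have : ∀ l : List Bool, ∑ B ∈ im F l, C / (2 ^ K / 3 ^ B.1) = (C / 2 ^ K) * ∑ B ∈ im F l, (3 : ℝ) ^ B.1 := by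
      intro l
      rw [mul_sum]
      apply sum_congr rfl
      intro B _
      field_simp
    simp only [this]
    rw [av_smul]
    ring
  rw [h2]
  apply av_tendsto'
  intro l
  exact tendsto_finsetSum _ fun B _ => p_scale (by positivity)

/-- The value of the classes decreases. -/
theorem ek_anti (F : Finset (ℕ × ℤ)) : Antitone (fun K => ek K F) := by
  apply antitone_nat_of_succ_le
  intro K
  unfold ek
  rw [av_append K 1, pow_succ, div_le_div_iff₀ (by positivity) (by positivity)]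
  have h : av K (fun l => av 1 (fun l' => ∑ B ∈ im F (l ++ l'), (3 : ℝ) ^ B.1)) ≤
      2 * av K (fun l => ∑ B ∈ im F l, (3 : ℝ) ^ B.1) := by
    rw [← av_smul]
    apply av_mono
    intro l _
    have h1 : ∀ l' : List Bool, ∑ B ∈ im F (l ++ l'), (3 : ℝ) ^ B.1 ≤ ∑ B ∈ im F l, (3 : ℝ) ^ (fl l' B).1 := by
      intro l'
      have e : im F (l ++ l') = (im F l).image (fl l') := by
        unfold im
        rw [image_image]
        apply image_congr
        intro A _
        simp only [Function.comp]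
        rw [fl_append]
      rw [e]
      have h6 := Finset.sum_comp (s := im F l) (fun B : ℕ × ℤ => (3 : ℝ) ^ B.1) (fl l')
      rw [h6]
      apply sum_le_sum
      intro B hB
      rw [mem_image] at hB
      obtain ⟨A, hA, hAB⟩ := hB
      have h7 : 1 ≤ ((im F l).filter (fun a => fl l' a = B)).card := by
        rw [Nat.one_le_iff_ne_zero]
        intro h8
        rw [card_eq_zero] at h8
        have : A ∈ (im F l).filter (fun a => fl l' a = B) := by rw [mem_filter]; exact ⟨hA, hAB⟩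
        rw [h8] at this
        simp at this
      have h8 : (1 : ℝ) ≤ (((im F l).filter (fun a => fl l' a = B)).card : ℝ) := by exact_mod_cast h7
      rw [nsmul_eq_mul]
      have : (0 : ℝ) < 3 ^ B.1 := by positivity
      nlinarith
    refine (av_mono fun l' _ => h1 l').trans ?_
    rw [av_sum, mul_sum]
    apply sum_le_sum
    intro B _
    have := av_three 1 B
    rw [pow_one] at this
    exact this.le
  have h2 : (0 : ℝ) < 2 ^ K := by positivity
  calc av K (fun l => av 1 (fun l' => ∑ B ∈ im F (l ++ l'), (3 : ℝ) ^ B.1)) * 2 ^ K ≤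
        (2 * av K (fun l => ∑ B ∈ im F l, (3 : ℝ) ^ B.1)) * 2 ^ K := mul_le_mul_of_nonneg_right h h2.le
    _ = _ := by ring

/-- The limit. -/
noncomputable def eF (F : Finset (ℕ × ℤ)) : ℝ := ⨅ K, ek K F

theorem ek_tendsto (F : Finset (ℕ × ℤ)) : Tendsto (fun K => ek K F) atTop (𝓝 (eF F)) :=
  tendsto_atTop_ciInf (ek_anti F) ⟨0, by rintro _ ⟨K, rfl⟩; exact ek_nonneg K F⟩

theorem ue_tendsto (F : Finset (ℕ × ℤ)) : Tendsto (fun K => ue K F) atTop (𝓝 0) := by
  have h : Tendsto (fun K => ue K F) atTop (𝓝 (∑ A ∈ F, ∑ B ∈ F, √ (3 ^ A.1 * 3 ^ B.1) * 0)) :=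
    tendsto_finsetSum _ fun A _ => tendsto_finsetSum _ fun B _ => (RR_lim (st A B)).const_mul _
  simpa using h

/-- THE LAW OF THE MAXIMUM OVER A FAMILY IN THE MODEL. -/
theorem Ul_law (F : Finset (ℕ × ℤ)) : Tendsto (fun t : ℝ => t * Ul F t) atTop (𝓝 (C * eF F)) := by
  rw [Metric.tendsto_nhds]
  intro ε hε
  have h1 : Tendsto (fun K => C * ek K F) atTop (𝓝 (C * eF F)) := (ek_tendsto F).const_mul C
  obtain ⟨K, hK1, hK2⟩ := ((Metric.tendsto_nhds.1 h1 (ε / 4) (by positivity)).and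
    (Metric.tendsto_nhds.1 (ue_tendsto F) (ε / 4) (by positivity))).exists
  have h2 := Metric.tendsto_nhds.1 (ul_scale K F) (ε / 4) (by positivity)
  have h3 : ∀ᶠ t : ℝ in atTop, ∀ B ∈ F, (3 : ℝ) ^ (B.1 + K) < t := by
    rw [Filter.eventually_all_finset]
    intro B _
    exact eventually_gt_atTop _
  filter_upwards [h2, h3, eventually_gt_atTop 0] with t g1 g2 g3
  obtain ⟨g4, g5⟩ := Ul_bounds K g3 g2
  have g7 := mul_le_mul_of_nonneg_left g4 g3.le
  have g8 := mul_le_mul_of_nonneg_left g5 g3.le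
  rw [mul_sub] at g7
  have g9 : t * (ue K F / t) = ue K F := by field_simp
  rw [g9] at g7
  rw [Real.dist_eq, abs_lt] at *
  constructor <;> linarith [g1.1, g1.2, hK1.1, hK1.2, hK2.1, hK2.2]

end Pool.Agent.K7.H66.EX
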