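import Pool.Agent.K7.H66.EX.G

/-!
Clusters of large excursions, part 8: the extremal index.
-/

set_option autoImplicit false

namespace Pool.Agent.K7.H66.EX

open Finset Filter Topology Pool.Agent.H499R2.CO Pool.Agent.W38.CR Pool.Agent.K7.H66.CW

open Pool.Agent.Helper894.Collatz (od T)

/-- `y` and `z` coalesce within `K` steps, as residues modulo `2 ^ K`. -/
def cq (K y z : ℕ) : Prop := od K y = od K z ∧ T^[K] y = T^[K] z

/-- The numbers `h < H` as forms. -/
def Fh (H : ℕ) : Finset (ℕ × ℤ) := (range H).image (fun h : ℕ => ((0 : ℕ), (h : ℤ)))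

theorem fl_shift_fst (K x h : ℕ) : (fl (bits K x) (0, (h : ℤ))).1 = od K (x + h) := by
  have h1 := (fl_bits K x (0, (h : ℤ)) (x + h) (by unfold ev; push_cast; ring)).1
  rw [h1, zero_add]

theorem fl_shift (K x h h' : ℕ) :
    fl (bits K x) (0, (h : ℤ)) = fl (bits K x) (0, (h' : ℤ)) ↔ cq K (x + h) (x + h') := by
  have h1 := (fl_bits K x (0, (h : ℤ)) (x + h) (by unfold ev; push_cast; ring)).2
  have h2 := (fl_bits K x (0, (h' : ℤ)) (x + h') (by unfold ev; push_cast; ring)).2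
  have h3 := fl_shift_fst K x h
  have h4 := fl_shift_fst K x h'
  unfold ev at h1 h2
  unfold cq
  constructor
  · intro h5
    rw [h5] at h1 h3
    refine ⟨h3.symm.trans h4, ?_⟩
    have : ((T^[K] (x + h) : ℕ) : ℤ) = ((T^[K] (x + h') : ℕ) : ℤ) := h1.trans h2.symm
    exact_mod_cast this
  · rintro ⟨h5, h6⟩
    have h7 : (fl (bits K x) (0, (h : ℤ))).1 = (fl (bits K x) (0, (h' : ℤ))).1 := by rw [h3, h4, h5]
    refine Prod.ext h7 ?_
    rw [h6, h2, h7] at h1
    linarith

/-- The sum over an image through the first occurrences. -/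
theorem sum_image_first {β : Type*} [DecidableEq β] (f : ℕ → β) (w : β → ℝ) (H : ℕ) :
    ∑ b ∈ (range H).image f, w b = ∑ h ∈ range H, (open Classical in if ∀ h' < h, f h' ≠ f h then w (f h) else 0) := by
  classical
  induction H with
  | zero => simp
  | succ H ih =>
    rw [sum_range_succ, ← ih, range_add_one, image_insert]
    by_cases h : ∀ h' < H, f h' ≠ f H
    · rw [if_pos h, sum_insert, add_comm]
      rw [mem_image]
      rintro ⟨h', h1, h2⟩
      exact h h' (mem_range.1 h1) h2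
    · rw [if_neg h, add_zero, insert_eq_of_mem]
      rw [mem_image]
      push Not at h
      obtain ⟨h', h1, h2⟩ := h
      exact ⟨h', mem_range.2 h1, h2⟩

/-- The value of `y` if none of `y - 1, ..., y - h` has coalesced with `y`. -/
noncomputable def ph' (K h y : ℕ) : ℝ := by
  classical
  exact if ∀ d, 1 ≤ d → d ≤ h → ¬ cq K (y - d) y then 3 ^ od K y else 0

theorem ph'_nonneg (K h y : ℕ) : 0 ≤ ph' K h y := by
  unfold ph'; split_ifs <;> positivity

theorem ph'_le (K h y : ℕ) : ph' K h y ≤ 3 ^ od K y := by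
  unfold ph'
  split_ifs
  · exact le_rfl
  · positivity

theorem ph'_anti (K h y : ℕ) : ph' K (h + 1) y ≤ ph' K h y := by
  classical
  by_cases h1 : ∀ d, 1 ≤ d → d ≤ h + 1 → ¬ cq K (y - d) y
  · have h2 : ∀ d, 1 ≤ d → d ≤ h → ¬ cq K (y - d) y := fun d h3 h4 => h1 d h3 (by omega)
    unfold ph'
    rw [if_pos h1, if_pos h2]
  · have e : ph' K (h + 1) y = 0 := by unfold ph'; rw [if_neg h1]
    rw [e]; exact ph'_nonneg K h y

theorem cq_period {K y z : ℕ} : cq K (y + 2 ^ K) (z + 2 ^ K) ↔ cq K y z := by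
  unfold cq
  obtain ⟨h1, h2, _⟩ := Pool.Agent.Helper894.Collatz.period K y 1
  obtain ⟨h3, h4, _⟩ := Pool.Agent.Helper894.Collatz.period K z 1
  rw [mul_one, mul_one] at h1 h3
  rw [mul_one] at h2 h4
  rw [h1, h2, h3, h4]
  constructor
  · rintro ⟨h5, h6⟩
    rw [h5] at h6
    exact ⟨h5, by omega⟩
  · rintro ⟨h5, h6⟩
    exact ⟨h5, by rw [h5, h6]⟩

theorem ph'_period {K h y : ℕ} (hy : h ≤ y) : ph' K h (y + 2 ^ K) = ph' K h y := by
  classical
  have h2 : od K (y + 2 ^ K) = od K y := by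
    have := (Pool.Agent.Helper894.Collatz.period K y 1).2.1
    rwa [mul_one] at this
  have h3 : (∀ d, 1 ≤ d → d ≤ h → ¬ cq K (y + 2 ^ K - d) (y + 2 ^ K)) ↔ (∀ d, 1 ≤ d → d ≤ h → ¬ cq K (y - d) y) := by
    refine forall_congr' fun d => forall_congr' fun h4 => forall_congr' fun h5 => ?_
    have e : y + 2 ^ K - d = (y - d) + 2 ^ K := by
      generalize 2 ^ K = P
      omega
    rw [e, cq_period]
  unfold ph'
  rw [h2]
  by_cases h4 : ∀ d, 1 ≤ d → d ≤ h → ¬ cq K (y - d) y
  · rw [if_pos h4, if_pos (h3.2 h4)]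
  · rw [if_neg h4, if_neg (fun h5 => h4 (h3.1 h5))]

/-- Numbers at distance at least `2 ^ K` have not coalesced. -/
theorem cq_far {K y z : ℕ} (h : z + 2 ^ K ≤ y) : ¬ cq K z y := by
  rintro ⟨h1, h2⟩
  have hK : 0 < 2 ^ K := by positivity
  have h3 := Pool.Agent.Helper894.Collatz.lt_pow K z (z / 2 ^ K + 1) (Nat.lt_mul_div_succ z hK)
  have h4 := Pool.Agent.Helper894.Collatz.iter_eq K y
  have h5 : z / 2 ^ K + 1 ≤ y / 2 ^ K := by
    rw [Nat.le_div_iff_mul_le hK, add_mul, one_mul]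
    have := Nat.div_mul_le_self z (2 ^ K)
    omega
  have h6 : 2 ^ K * (3 ^ od K y * (y / 2 ^ K)) ≤ 2 ^ K * T^[K] y := by
    rw [h4]
    have := Nat.mul_div_le y (2 ^ K)
    calc 2 ^ K * (3 ^ od K y * (y / 2 ^ K)) = 3 ^ od K y * (2 ^ K * (y / 2 ^ K)) := by ring
      _ ≤ 3 ^ od K y * y := Nat.mul_le_mul_left _ this
      _ ≤ _ := Nat.le_add_right _ _
  have h7 := Nat.le_of_mul_le_mul_left h6 hK
  rw [h1, h2] at h3
  have h8 := Nat.mul_le_mul_left (3 ^ od K y) h5
  omega

/-- The mass of the numbers not coalesced with any of the `h` preceding ones. -/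
noncomputable def ah (K h : ℕ) : ℝ := (∑ x ∈ range (2 ^ K), ph' K h (x + h)) / 4 ^ K

theorem ah_nonneg (K h : ℕ) : 0 ≤ ah K h := div_nonneg (sum_nonneg fun _ _ => ph'_nonneg _ _ _) (by positivity)

theorem ah_shift (K h : ℕ) : ∑ x ∈ range (2 ^ K), ph' K h (x + (h + 1)) = ∑ x ∈ range (2 ^ K), ph' K h (x + h) := by
  have h1 := sum_range_succ (fun x => ph' K h (x + h)) (2 ^ K)
  have h2 := sum_range_succ' (fun x => ph' K h (x + h)) (2 ^ K)
  rw [zero_add] at h2
  have h3 : ph' K h (2 ^ K + h) = ph' K h h := by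
    rw [add_comm]; exact ph'_period le_rfl
  rw [h3] at h1
  have h4 : ∀ x, ph' K h (x + 1 + h) = ph' K h (x + (h + 1)) := fun x => by rw [show x + 1 + h = x + (h + 1) by ring]
  simp only [h4] at h2
  linarith

theorem ah_anti (K : ℕ) : Antitone (ah K) := by
  apply antitone_nat_of_succ_le
  intro h
  unfold ah
  rw [← ah_shift K h]
  exact div_le_div_of_nonneg_right (sum_le_sum fun x _ => ph'_anti K h _) (by positivity)

theorem ah_const {K h : ℕ} (hK : 2 ^ K ≤ h) : ah K (h + 1) = ah K h := by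
  classical
  unfold ah
  rw [← ah_shift K h]
  congr 1
  apply sum_congr rfl
  intro x _
  have h1 : (∀ d, 1 ≤ d → d ≤ h + 1 → ¬ cq K (x + (h + 1) - d) (x + (h + 1))) ↔
      (∀ d, 1 ≤ d → d ≤ h → ¬ cq K (x + (h + 1) - d) (x + (h + 1))) := by
    constructor
    · intro h2 d h3 h4; exact h2 d h3 (by omega)
    · intro h2 d h3 h4
      rcases Nat.lt_or_ge h d with h5 | h5
      · exact cq_far (by omega)
      · exact h2 d h3 h5
  unfold ph'
  by_cases h2 : ∀ d, 1 ≤ d → d ≤ h → ¬ cq K (x + (h + 1) - d) (x + (h + 1))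
  · rw [if_pos h2, if_pos (h1.2 h2)]
  · rw [if_neg h2, if_neg (fun h3 => h2 (h1.1 h3))]

/-- The mass of the classes. -/
noncomputable def tk (K : ℕ) : ℝ := ah K (2 ^ K)

theorem ah_eq_tk {K h : ℕ} (hK : 2 ^ K ≤ h) : ah K h = tk K := by
  obtain ⟨j, rfl⟩ := Nat.exists_eq_add_of_le hK
  induction j with
  | zero => rfl
  | succ j ih => rw [← add_assoc, ah_const (by omega), ih (by omega)]

theorem tk_le_ah (K h : ℕ) : tk K ≤ ah K h := by
  rcases le_total h (2 ^ K) with h1 | h1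
  · exact ah_anti K h1
  · rw [ah_eq_tk h1]

theorem sum_three_od (K : ℕ) : ∑ x ∈ range (2 ^ K), (3 : ℝ) ^ od K x = 4 ^ K := by
  have h := sum_bits K (fun l => (3 : ℝ) ^ (fl l (0, 0)).1)
  rw [av_three] at h
  have e : ∀ x ∈ range (2 ^ K), (3 : ℝ) ^ od K x = 3 ^ (fl (bits K x) (0, 0)).1 := by
    intro x _
    have := fl_shift_fst K x 0
    rw [add_zero, Nat.cast_zero] at this
    rw [this]
  rw [sum_congr rfl e, h]
  norm_num
  rw [← mul_pow]; norm_num

theorem ah_zero (K : ℕ) : ah K 0 = 1 := by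
  unfold ah
  have e : ∀ x ∈ range (2 ^ K), ph' K 0 (x + 0) = (3 : ℝ) ^ od K x := by
    intro x _
    unfold ph'
    rw [if_pos (fun d h1 h2 => by omega), add_zero]
  rw [sum_congr rfl e, sum_three_od]
  field_simp

theorem ah_le_one (K h : ℕ) : ah K h ≤ 1 := by
  rw [← ah_zero K]; exact ah_anti K (Nat.zero_le h)

/-- The value of the classes through the first elements. -/
theorem ek_eq (K H : ℕ) : ek K (Fh H) = ∑ h ∈ range H, ah K h := by
  classical
  unfold ek ah
  have h1 := sum_bits K (fun l => ∑ B ∈ im (Fh H) l, (3 : ℝ) ^ B.1)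
  have h2 : av K (fun l => ∑ B ∈ im (Fh H) l, (3 : ℝ) ^ B.1) =
      (∑ x ∈ range (2 ^ K), ∑ B ∈ im (Fh H) (bits K x), (3 : ℝ) ^ B.1) / 2 ^ K := by
    rw [h1]; field_simp
  have h3 : ∀ x ∈ range (2 ^ K), ∑ B ∈ im (Fh H) (bits K x), (3 : ℝ) ^ B.1 = ∑ h ∈ range H, ph' K h (x + h) := by
    intro x _
    have e : im (Fh H) (bits K x) = (range H).image (fun h : ℕ => fl (bits K x) (0, (h : ℤ))) := by
      unfold im Fh
      rw [image_image]
      rfl
    rw [e, sum_image_first]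
    apply sum_congr rfl
    intro h _
    unfold ph'
    have h4 : (∀ h' < h, fl (bits K x) (0, (h' : ℤ)) ≠ fl (bits K x) (0, (h : ℤ))) ↔
        (∀ d, 1 ≤ d → d ≤ h → ¬ cq K (x + h - d) (x + h)) := by
      constructor
      · intro h5 d h6 h7 h8
        refine h5 (h - d) (by omega) ?_
        rw [fl_shift]
        rw [show x + (h - d) = x + h - d by omega]
        exact h8
      · intro h5 h' h6 h7
        rw [fl_shift] at h7
        refine h5 (h - h') (by omega) (by omega) ?_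
        rw [show x + h - (h - h') = x + h' by omega]
        exact h7
    rw [fl_shift_fst]
    by_cases h5 : ∀ d, 1 ≤ d → d ≤ h → ¬ cq K (x + h - d) (x + h)
    · rw [if_pos h5, if_pos (h4.2 h5)]
    · rw [if_neg h5, if_neg (fun h6 => h5 (h4.1 h6))]
  rw [h2, sum_congr rfl h3, sum_comm, ← sum_div, div_div]
  have : (2 : ℝ) ^ K * 2 ^ K = 4 ^ K := by rw [← mul_pow]; norm_num
  rw [this]

/-- The extremal index. -/
noncomputable def th : ℝ := ⨅ K, tk K

theorem tk_nonneg (K : ℕ) : 0 ≤ tk K := ah_nonneg K _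

theorem th_le (K : ℕ) : th ≤ tk K := ciInf_le ⟨0, by rintro _ ⟨K, rfl⟩; exact tk_nonneg K⟩ K

theorem ek_lower (K H : ℕ) : H * tk K ≤ ek K (Fh H) := by
  rw [ek_eq]
  have := sum_le_sum (s := range H) (f := fun _ => tk K) (g := fun h => ah K h) (fun h _ => tk_le_ah K h)
  rw [sum_const, card_range, nsmul_eq_mul] at this
  exact this

theorem ek_upper (K H : ℕ) : ek K (Fh H) ≤ H * tk K + 2 ^ K := by
  rw [ek_eq]
  have h1 : ∀ h ∈ range H, ah K h ≤ tk K + (if h < 2 ^ K then 1 else 0) := by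
    intro h _
    by_cases h2 : h < 2 ^ K
    · rw [if_pos h2]
      have := ah_le_one K h
      have := tk_nonneg K
      linarith
    · rw [if_neg h2, ah_eq_tk (by omega), add_zero]
  refine (sum_le_sum h1).trans ?_
  rw [sum_add_distrib, sum_const, card_range, nsmul_eq_mul, ← sum_filter, sum_const, nsmul_eq_mul, mul_one]
  have h3 : ((range H).filter (fun h => h < 2 ^ K)).card ≤ 2 ^ K := by
    have : (range H).filter (fun h => h < 2 ^ K) ⊆ range (2 ^ K) := by
      intro h hh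
      rw [mem_filter] at hh
      exact mem_range.2 hh.2
    have := card_le_card this
    rwa [card_range] at this
  have h4 : (((range H).filter (fun h => h < 2 ^ K)).card : ℝ) ≤ 2 ^ K := by exact_mod_cast h3
  linarith

theorem tk_anti : Antitone tk := by
  intro K K' hKK
  have h1 : ∀ H : ℕ, 1 ≤ H → tk K' ≤ tk K + 2 ^ K / H := by
    intro H hH
    have hH0 : (0 : ℝ) < H := by exact_mod_cast hH
    have h2 := (ek_lower K' H).trans ((ek_anti (Fh H) hKK).trans (ek_upper K H))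
    rw [← sub_le_iff_le_add', le_div_iff₀ hH0]
    linarith
  have h2 : Tendsto (fun H : ℕ => tk K + 2 ^ K / (H : ℝ)) atTop (𝓝 (tk K + 0)) :=
    (tendsto_const_div_atTop_nhds_zero_nat _).const_add _
  rw [add_zero] at h2
  refine ge_of_tendsto h2 ?_
  filter_upwards [eventually_ge_atTop 1] with H hH
  exact h1 H hH

theorem tk_tendsto : Tendsto tk atTop (𝓝 th) :=
  tendsto_atTop_ciInf tk_anti ⟨0, by rintro _ ⟨K, rfl⟩; exact tk_nonneg K⟩

theorem eF_lower (H : ℕ) : H * th ≤ eF (Fh H) :=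
  ge_of_tendsto' (ek_tendsto (Fh H)) fun K =>
    (mul_le_mul_of_nonneg_left (th_le K) (Nat.cast_nonneg H)).trans (ek_lower K H)

theorem eF_upper (K H : ℕ) : eF (Fh H) ≤ H * tk K + 2 ^ K :=
  ((ek_anti (Fh H)).le_of_tendsto (ek_tendsto (Fh H)) K).trans (ek_upper K H)

/-- THE EXTREMAL INDEX. -/
theorem eF_tendsto : Tendsto (fun H : ℕ => eF (Fh H) / H) atTop (𝓝 th) := by
  rw [Metric.tendsto_nhds]
  intro ε hε
  obtain ⟨K, hK⟩ := (Metric.tendsto_nhds.1 tk_tendsto (ε / 2) (by positivity)).exists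
  have h1 : Tendsto (fun H : ℕ => (2 : ℝ) ^ K / (H : ℝ)) atTop (𝓝 0) := tendsto_const_div_atTop_nhds_zero_nat _
  filter_upwards [h1.eventually (gt_mem_nhds (show (0 : ℝ) < ε / 2 by positivity)), eventually_gt_atTop 0] with H g1 g2
  have hH : (0 : ℝ) < H := by exact_mod_cast g2
  have g3 := eF_lower H
  have g4 := eF_upper K H
  rw [Real.dist_eq, abs_lt] at hK ⊢
  have g5 : th ≤ eF (Fh H) / H := by rw [le_div_iff₀ hH]; linarith
  have g6 : eF (Fh H) / H ≤ tk K + 2 ^ K / H := by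
    rw [div_le_iff₀ hH, add_mul, div_mul_cancel₀ _ hH.ne']
    linarith
  constructor <;> linarith [hK.1, hK.2]

/-- The mass of the classes, explicitly. -/
theorem tk_eq (K : ℕ) : tk K = (∑ B ∈ (range (2 ^ K)).image (fun x => (od K x, T^[K] x)), (3 : ℝ) ^ B.1) / 4 ^ K := by
  classical
  unfold tk ah
  rw [sum_image_first]
  congr 1
  apply sum_congr rfl
  intro x hx
  rw [mem_range] at hx
  have hper : ∀ z : ℕ, cq K (z + 2 ^ K) (x + 2 ^ K) ↔ cq K z x := fun z => cq_period
  have h1 : (∀ d, 1 ≤ d → d ≤ 2 ^ K → ¬ cq K (x + 2 ^ K - d) (x + 2 ^ K)) ↔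
      (∀ x' < x, (od K x', T^[K] x') ≠ (od K x, T^[K] x)) := by
    constructor
    · intro h2 x' h3 h4
      rw [Prod.mk.injEq] at h4
      refine h2 (x - x') (by omega) (by omega) ?_
      rw [show x + 2 ^ K - (x - x') = x' + 2 ^ K by omega, hper]
      exact h4
    · intro h2 d h3 h4 h5
      rcases le_or_gt d x with h6 | h6
      · rw [show x + 2 ^ K - d = (x - d) + 2 ^ K by omega, hper] at h5
        exact h2 (x - d) (by omega) (by rw [h5.1, h5.2])
      · -- the other number is less than `2 ^ K`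
        obtain ⟨h7, h8⟩ := h5
        have h9 := Pool.Agent.Helper894.Collatz.lt_pow K (x + 2 ^ K - d) 1 (by omega)
        obtain ⟨g1, g2, _⟩ := Pool.Agent.Helper894.Collatz.period K x 1
        rw [mul_one, mul_one] at g1
        rw [mul_one] at g2
        rw [mul_one, h8, h7, g1, g2] at h9
        omega
  unfold ph'
  have h2 : od K (x + 2 ^ K) = od K x := by
    have := (Pool.Agent.Helper894.Collatz.period K x 1).2.1
    rwa [mul_one] at this
  rw [h2]
  by_cases h3 : ∀ x' < x, (od K x', T^[K] x') ≠ (od K x, T^[K] x)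
  · rw [if_pos h3, if_pos (h1.2 h3)]
  · rw [if_neg h3, if_neg (fun h4 => h3 (h1.1 h4))]

end Pool.Agent.K7.H66.EX
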