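import Pool.Agent.K7.H66.EX.H

/-!
Clusters of large excursions, part 9: the extremal index is positive; the maximum over a window.
-/

set_option autoImplicit false

namespace Pool.Agent.K7.H66.EX

open Finset Filter Topology Pool.Agent.H499R2.CO Pool.Agent.W38.CR Pool.Agent.K7.H66.CW

open Pool.Agent.H499R2.ND (cnt cnt_eq cnt_mono cnt_or Dn Tn Tn_eq Bdd AK)
open Pool.Agent.Helper894.Collatz (od T er)

/-- The mean square root of the constant. -/
noncomputable def yk (A : ℕ × ℤ) (K : ℕ) : ℝ := av K (fun l => √ ((cc l A : ℝ) * 3 ^ dl l A))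

theorem sqrt_cc (l : List Bool) (A : ℕ × ℤ) :
    √ ((cc (l ++ [false]) A : ℝ) * 3 ^ dl (l ++ [false]) A) + √ ((cc (l ++ [true]) A : ℝ) * 3 ^ dl (l ++ [true]) A) ≤
      4 * √ ((cc l A : ℝ) * 3 ^ dl l A) + √3 * (√2 ^ l.length * √3 ^ dl l A) := by
  have hc : (0 : ℝ) ≤ cc l A := by exact_mod_cast cc_nonneg A l
  have key : √ ((((3 * cc l A + 2 ^ l.length : ℤ)) : ℝ) * 3 ^ (dl l A + 1)) ≤
      3 * √ ((cc l A : ℝ) * 3 ^ dl l A) + √3 * (√2 ^ l.length * √3 ^ dl l A) := by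
    push_cast
    have e : (3 * (cc l A : ℝ) + 2 ^ l.length) * 3 ^ (dl l A + 1) =
        3 ^ 2 * ((cc l A : ℝ) * 3 ^ dl l A) + 3 * (2 ^ l.length * 3 ^ dl l A) := by rw [pow_succ]; ring
    rw [e]
    have h1 : √ (3 ^ 2 * ((cc l A : ℝ) * 3 ^ dl l A)) = 3 * √ ((cc l A : ℝ) * 3 ^ dl l A) := by
      rw [Real.sqrt_mul (by norm_num), Real.sqrt_sq (by norm_num)]
    have h2 : √ (3 * ((2 : ℝ) ^ l.length * 3 ^ dl l A)) = √3 * (√2 ^ l.length * √3 ^ dl l A) := by
      rw [Real.sqrt_mul (by norm_num), Real.sqrt_mul (by positivity), Real.sqrt_eq_rpow (2 ^ l.length),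
        Real.sqrt_eq_rpow (3 ^ dl l A), ← Real.rpow_natCast, ← Real.rpow_natCast, ← Real.rpow_mul (by norm_num),
        ← Real.rpow_mul (by norm_num), Real.sqrt_eq_rpow 2, Real.sqrt_eq_rpow 3, ← Real.rpow_natCast,
        ← Real.rpow_natCast, ← Real.rpow_mul (by norm_num), ← Real.rpow_mul (by norm_num),
        mul_comm (1 / 2 : ℝ) _, mul_comm (1 / 2 : ℝ) _]
    rw [← h1, ← h2]
    exact Pool.Agent.H499R2.CO.sqrt_add_le' (by positivity) (by positivity)
  rcases vl_cases (fl l A) with ⟨h0, h1⟩ | ⟨h0, h1⟩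
  · rw [cc_even h0, dl_even h0, cc_odd h1, dl_odd h1]
    linarith
  · rw [cc_even h1, dl_even h1, cc_odd h0, dl_odd h0]
    linarith

theorem yk_le (A : ℕ × ℤ) : ∀ K : ℕ, yk A K ≤ 2 ^ K * (12.74 * (1 - 0.966 ^ K)) := by
  intro K
  induction K with
  | zero => simp [yk, av, cc_nil]
  | succ K ih =>
    have h3 : √3 ≤ 1.7321 := sqrt3_le
    have h30 := sqrt3_nonneg
    have h1 : yk A (K + 1) ≤ 2 * yk A K + (√3 / 2) * (√2 ^ K * ((1 + √3) / 2) ^ K) := by
      have e := av_pow A √3 K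
      rw [← e]
      unfold yk
      rw [av_succ', ← av_smul, ← av_smul, ← av_smul, ← av_add]
      apply av_mono
      intro l hl
      have := sqrt_cc l A
      rw [hl] at this
      linarith
    have h2 : √2 ^ K * ((1 + √3) / 2) ^ K ≤ 2 ^ K * 0.966 ^ K := by
      rw [← mul_pow, ← mul_pow]
      apply pow_le_pow_left₀ (by positivity)
      have h4 : √2 ≤ 1.41422 := by
        rw [Real.sqrt_le_left (by norm_num)]; norm_num
      have h5 : (0 : ℝ) ≤ √2 := Real.sqrt_nonneg _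
      nlinarith
    have h4 : (√3 / 2) * (√2 ^ K * ((1 + √3) / 2) ^ K) ≤ 0.86605 * (2 ^ K * 0.966 ^ K) := by
      apply mul_le_mul (by linarith) h2 (by positivity) (by norm_num)
    have h5 : (0 : ℝ) < 2 ^ K * 0.966 ^ K := by positivity
    have e : (2 : ℝ) ^ (K + 1) * (12.74 * (1 - 0.966 ^ (K + 1))) =
        2 * (2 ^ K * (12.74 * (1 - 0.966 ^ K))) + 0.86632 * (2 ^ K * 0.966 ^ K) := by
      rw [pow_succ, pow_succ]; ring
    rw [e]
    linarith

theorem good_mass (K : ℕ) (A : ℕ × ℤ) :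
    2 ^ K / 2 ≤ av K (fun l => ind ((cc l A : ℝ) < 650 * 3 ^ dl l A) * 3 ^ dl l A) := by
  have h1 := av_pow A 3 K
  have e1 : ((1 + 3 : ℝ) / 2) ^ K = 2 ^ K := by norm_num
  rw [e1] at h1
  have h2 : av K (fun l => (3 : ℝ) ^ dl l A) ≤
      av K (fun l => ind ((cc l A : ℝ) < 650 * 3 ^ dl l A) * 3 ^ dl l A + (1 / 25.49) * √ ((cc l A : ℝ) * 3 ^ dl l A)) := by
    apply av_mono
    intro l _
    by_cases h : (cc l A : ℝ) < 650 * 3 ^ dl l A
    · rw [ind_pos h, one_mul]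
      have := Real.sqrt_nonneg ((cc l A : ℝ) * 3 ^ dl l A)
      linarith
    · rw [ind_neg h, zero_mul, zero_add]
      push Not at h
      have h3 : (25.49 : ℝ) * 3 ^ dl l A ≤ √ ((cc l A : ℝ) * 3 ^ dl l A) := by
        apply Real.le_sqrt_of_sq_le
        have h4 : (0 : ℝ) < 3 ^ dl l A := by positivity
        nlinarith
      rw [one_div, inv_mul_eq_div, le_div_iff₀ (by norm_num)]
      linarith
  rw [av_add, av_smul, h1] at h2
  have h3 := yk_le A K
  unfold yk at h3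
  have h4 : (0 : ℝ) < 2 ^ K := by positivity
  have h5 : (0 : ℝ) ≤ 0.966 ^ K := by positivity
  have h6 : 2 ^ K * (12.74 * (1 - (0.966 : ℝ) ^ K)) ≤ 2 ^ K * 12.74 := by
    apply mul_le_mul_of_nonneg_left _ h4.le
    linarith
  have h7 : (1 / 25.49 : ℝ) * (2 ^ K * 12.74) ≤ 2 ^ K / 2 := by
    have : (1 / 25.49 : ℝ) * (2 ^ K * 12.74) = (12.74 / 25.49) * 2 ^ K := by ring
    rw [this]
    nlinarith
  have h8 := mul_le_mul_of_nonneg_left (h3.trans h6) (show (0 : ℝ) ≤ 1 / 25.49 by norm_num)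
  linarith

theorem cc_er {K x : ℕ} (hx : x < 2 ^ K) : (cc (bits K x) (0, 0) : ℤ) = er K x ∧ dl (bits K x) (0, 0) = od K x := by
  obtain ⟨h1, h2⟩ := fl_bits K x (0, 0) x (by unfold ev; simp)
  have h3 : dl (bits K x) (0, 0) = od K x := by
    unfold dl
    rw [h1]
    simp
  refine ⟨?_, h3⟩
  have h4 : bv (bits K x) = x := by rw [bv_bits_mod, Nat.mod_eq_of_lt hx]
  have h5 := Pool.Agent.Helper894.Collatz.iter_eq K x
  have h6 : (x / 2 ^ K : ℕ) = 0 := Nat.div_eq_of_lt hx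
  unfold cc
  rw [length_bits, h3, h4]
  unfold ev at h2
  rw [h6] at h2
  push_cast at h2
  rw [mul_zero, zero_add] at h2
  rw [← h2]
  have h7 : ((2 ^ K * T^[K] x : ℕ) : ℤ) = ((3 ^ od K x * x + er K x : ℕ) : ℤ) := by rw [h5]
  push_cast at h7
  simp only [pow_zero, one_mul, add_zero]
  linarith

theorem tk_lower (K : ℕ) : 1 / 1300 ≤ tk K := by
  classical
  have h1 := good_mass K (0, 0)
  have h2 := sum_bits K (fun l => ind ((cc l (0, 0) : ℝ) < 650 * 3 ^ dl l (0, 0)) * 3 ^ dl l (0, 0))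
  obtain ⟨Q, hQ⟩ : ∃ Q : ℕ → Prop, ∀ x, Q x ↔ (er K x : ℝ) < 650 * 3 ^ od K x := ⟨_, fun _ => Iff.rfl⟩
  have h3 : ∀ x ∈ range (2 ^ K), ind ((cc (bits K x) (0, 0) : ℝ) < 650 * 3 ^ dl (bits K x) (0, 0)) *
      (3 : ℝ) ^ dl (bits K x) (0, 0) = ind (Q x) * 3 ^ od K x := by
    intro x hx
    obtain ⟨g1, g2⟩ := cc_er (mem_range.1 hx)
    rw [g2, g1]
    congr 2
    rw [eq_iff_iff, hQ]
    push_cast
    rfl
  rw [sum_congr rfl h3] at h2
  have h4 : ∑ x ∈ range (2 ^ K), ind (Q x) * (3 : ℝ) ^ od K x ≤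
      ∑ B ∈ (range (2 ^ K)).image (fun x => (od K x, T^[K] x)), 650 * (3 : ℝ) ^ B.1 := by
    rw [← sum_fiberwise_of_maps_to (g := fun x => (od K x, T^[K] x)) (t := (range (2 ^ K)).image (fun x => (od K x, T^[K] x)))
      (fun x hx => mem_image_of_mem _ hx)]
    apply sum_le_sum
    rintro ⟨o, c⟩ _
    have h5 : ∑ x ∈ (range (2 ^ K)).filter (fun x => (od K x, T^[K] x) = (o, c)), ind (Q x) * (3 : ℝ) ^ od K x =
        ((((range (2 ^ K)).filter (fun x => (od K x, T^[K] x) = (o, c))).filter Q).card : ℝ) * 3 ^ o := by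
      rw [card_filter]
      push_cast
      rw [sum_mul]
      apply sum_congr rfl
      intro x hx
      rw [mem_filter, Prod.mk.injEq] at hx
      rw [hx.2.1]
      by_cases h : Q x
      · rw [if_pos h, ind_pos h]
      · rw [if_neg h, ind_neg h]
    rw [h5]
    apply mul_le_mul_of_nonneg_right _ (by positivity)
    set S := ((range (2 ^ K)).filter (fun x => (od K x, T^[K] x) = (o, c))).filter Q with hS
    rcases S.eq_empty_or_nonempty with h6 | h6
    · rw [h6]; simp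
    · have h7 : S ⊆ Ico (S.min' h6) (S.min' h6 + 650) := by
        intro x hx
        rw [mem_Ico]
        refine ⟨S.min'_le x hx, ?_⟩
        have hm := S.min'_mem h6
        set z := S.min' h6 with hz
        rw [hS, mem_filter, mem_filter, Prod.mk.injEq] at hx hm
        have g1 := Pool.Agent.Helper894.Collatz.iter_eq K x
        have g2 := Pool.Agent.Helper894.Collatz.iter_eq K z
        rw [hx.1.2.1, hx.1.2.2] at g1
        rw [hm.1.2.1, hm.1.2.2] at g2
        have g3 : (er K z : ℝ) < 650 * 3 ^ o := by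
          have := (hQ z).1 hm.2
          rwa [hm.1.2.1] at this
        have g4 : er K z < 650 * 3 ^ o := by exact_mod_cast g3
        have g5 : 3 ^ o * x < 3 ^ o * (z + 650) := by
          have : 3 ^ o * (z + 650) = 3 ^ o * z + 650 * 3 ^ o := by ring
          omega
        exact lt_of_mul_lt_mul_left g5 (Nat.zero_le _)
      have h8 := card_le_card h7
      rw [Nat.card_Ico] at h8
      have h9 : S.card ≤ 650 := by omega
      exact_mod_cast h9
  rw [h2, ← mul_sum] at h4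
  rw [tk_eq, div_le_div_iff₀ (by norm_num) (by positivity)]
  have h5 : (2 : ℝ) ^ K * (2 ^ K / 2) ≤ 650 * ∑ B ∈ (range (2 ^ K)).image (fun x => (od K x, T^[K] x)), (3 : ℝ) ^ B.1 :=
    (mul_le_mul_of_nonneg_left h1 (by positivity)).trans h4
  have h6 : (2 : ℝ) ^ K * 2 ^ K = 4 ^ K := by rw [← mul_pow]; norm_num
  nlinarith

theorem th_lower : 1 / 1300 ≤ th := le_ciInf tk_lower

theorem cls8 : ∑ B ∈ (range (2 ^ 8)).image (fun x => (od 8 x, T^[8] x)), 3 ^ B.1 = 52117 := by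
  decide +kernel

theorem th_upper : th < 4 / 5 := by
  refine lt_of_le_of_lt (th_le 8) ?_
  rw [tk_eq, div_lt_iff₀ (by positivity)]
  have h := cls8
  have h1 : ∑ B ∈ (range (2 ^ 8)).image (fun x => (od 8 x, T^[8] x)), (3 : ℝ) ^ B.1 = 52117 := by exact_mod_cast h
  rw [h1]
  norm_num

/-! ### the maximum over a window -/

theorem fm_shift (h n : ℕ) : fm (0, h) n = n + h := by
  unfold fm; simp

theorem Fh_exists (H : ℕ) (lam : ℝ) (l : List Bool) :
    (∃ B ∈ Fh H, Up l B lam) ↔ ∃ h < H, Up l (za (0, h)) (3 ^ ((0 : ℕ), h).1 * lam) := by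
  unfold Fh
  constructor
  · rintro ⟨B, hB, h1⟩
    rw [mem_image] at hB
    obtain ⟨h, hh, rfl⟩ := hB
    refine ⟨h, mem_range.1 hh, ?_⟩
    simp only [pow_zero, one_mul]
    exact h1
  · rintro ⟨h, hh, h1⟩
    refine ⟨(0, (h : ℤ)), mem_image_of_mem _ (mem_range.2 hh), ?_⟩
    simp only [pow_zero, one_mul] at h1
    exact h1

/-- THE LAW OF THE MAXIMUM OVER A WINDOW, inside an invariant set. -/
theorem window_density {P : ℕ → Prop} {δ : ℝ} (hP : ∀ n, P n ↔ P (Tn n)) (hPB : ∀ n, P n → Bdd n) (hδ : Dn P δ)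
    (H : ℕ) {lam : ℝ} (hl : 1 < lam) :
    Dn (fun n => P n ∧ ∃ h < H, Exc (n + h) (lam * ((n + h : ℕ) : ℝ))) (Ul (Fh H) lam * δ) := by
  classical
  set J := Ul (Fh H) lam with hJ
  set E : ℕ → Prop := fun n => P n ∧ ∃ h < H, Exc (n + h) (lam * ((n + h : ℕ) : ℝ)) with hE
  set F : Finset (ℕ × ℕ) := (range H).image (fun h => (0, h)) with hF
  unfold Dn
  rw [Metric.tendsto_nhds]
  intro ε hε
  obtain ⟨K0, hK0⟩ := Rare_small F (lam := fun _ => lam) (fun _ _ => hl.le) (ε := ε / 4) (by positivity)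
  have h1 : Tendsto (fun K => Un K (Fh H) lam * δ) atTop (𝓝 (J * δ)) := (Un_tendsto (Fh H) lam).mul_const δ
  obtain ⟨K, hK1, hK2⟩ := ((Metric.tendsto_nhds.1 h1 (ε / 4) (by positivity)).and (eventually_ge_atTop K0)).exists
  have h2 := dn_bits hP hδ K (fun l => ∃ B ∈ Fh H, Up l B lam)
  have h3 : av K (fun l => ind (∃ B ∈ Fh H, Up l B lam)) = Un K (Fh H) lam := rfl
  rw [h3] at h2
  unfold Dn at h2
  filter_upwards [hK0 K hK2, Metric.tendsto_nhds.1 h2 (ε / 4) (by positivity), eventually_gt_atTop 0] with N g1 g2 g3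
  have hN : (0 : ℝ) < N := by exact_mod_cast g3
  have i1 : cnt (fun n => (∃ B ∈ Fh H, Up (bits K n) B lam) ∧ P n) N ≤ cnt E N := by
    apply cnt_mono
    intro n hn _ ⟨h4, h5⟩
    refine ⟨h5, ?_⟩
    obtain ⟨h, hh, h6⟩ := (Fh_exists H lam (bits K n)).1 h4
    refine ⟨h, hh, ?_⟩
    have := exc_of_Up hl hn h6
    rwa [fm_shift] at this
  have i2 : cnt E N ≤ cnt (fun n => (∃ B ∈ Fh H, Up (bits K n) B lam) ∧ P n) N + cnt (Rare F (fun _ => lam) K) N := by
    apply cnt_or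
    intro n hn _ ⟨h4, h5⟩
    by_cases h6 : Rare F (fun _ => lam) K n
    · exact Or.inr h6
    · left
      refine ⟨(Fh_exists H lam (bits K n)).2 ?_, h4⟩
      obtain ⟨h, hh, h7⟩ := h5
      refine ⟨h, hh, ?_⟩
      unfold Rare at h6
      push Not at h6
      obtain ⟨h8, h9⟩ := h6 (0, h) (mem_image_of_mem _ (mem_range.2 hh))
      apply Up_of_exc hl _ h8 (h9 (hPB n h4))
      rw [fm_shift]
      exact h7
  rw [Real.dist_eq, abs_lt] at g2 hK1 ⊢
  have e1 : cnt E N / N ≤ cnt (fun n => (∃ B ∈ Fh H, Up (bits K n) B lam) ∧ P n) N / N + ε / 4 := by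
    rw [div_le_iff₀ hN, add_mul, div_mul_cancel₀ _ hN.ne']
    linarith
  have e2 : cnt (fun n => (∃ B ∈ Fh H, Up (bits K n) B lam) ∧ P n) N / N ≤ cnt E N / N :=
    div_le_div_of_nonneg_right i1 hN.le
  constructor <;> linarith [g2.1, g2.2, hK1.1, hK1.2]

end Pool.Agent.K7.H66.EX
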